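/-
MP_12179d_CR : exceptional minimal sets of groups of circle diffeomorphisms a little smoother than C².
Definitions.  `A : Sys` is a finitely generated group of lifts with an exceptional minimal set `A.L` (Pool/Agent/H42/EM/Defs.lean).
`E a b c d` = mu ((a,b) x (c,d)) for the Moebius invariant measure mu = dx dy / (x - y)^2, `kap g` = the density of (g x g)^* mu - mu.
-/
import Mathlib
import Pool.Agent.H42.EM.Pth

set_option autoImplicit false

namespace Pool.Agent.H59.CR

open Set MeasureTheory Pool.Agent.H42.EM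

/-- logarithm of the cross ratio -/
noncomputable def E (a b c d : ℝ) : ℝ :=
  Real.log (c - a) + Real.log (d - b) - Real.log (c - b) - Real.log (d - a)

/-- the defect of invariance of `dx dy / (x - y)^2` under `g` -/
noncomputable def kap (g : Equiv.Perm ℝ) (x y : ℝ) : ℝ :=
  deriv (⇑g) x * deriv (⇑g) y / (g y - g x) ^ 2 - 1 / (y - x) ^ 2

/-- the pairs at distance less than one -/
def Dom : Set (ℝ × ℝ) := {p | 0 < p.1 ∧ p.1 < 2 ∧ p.1 < p.2 ∧ p.2 < p.1 + 1}

/-- the sum of the absolute defects of the generators, as a measure -/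
noncomputable def nu (A : Sys) : Measure (ℝ × ℝ) :=
  volume.withDensity (fun p : ℝ × ℝ => ∑ i, ‖kap (A.f i) p.1 p.2‖ₑ)

/-- the total defect -/
noncomputable def K (A : Sys) : ℝ := (nu A Dom).toReal

lemma K_nonneg (A : Sys) : 0 ≤ K A := ENNReal.toReal_nonneg

/-- the constant of the main estimate for the gap `(a₀, b₀)` -/
noncomputable def cc (A : Sys) (a₀ b₀ : ℝ) : ℝ := (b₀ - a₀) * Real.exp (-(2 * K A)) / 2

/-- `a` is moved to an integer translate of `a₀` by a word of length `n` -/
def Lv (A : Sys) (a₀ : ℝ) (n : ℕ) (a : ℝ) : Prop :=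
  ∃ (w : ℕ → Equiv.Perm ℝ) (k : ℤ), A.Path n w ∧ w n a = a₀ + k

end Pool.Agent.H59.CR
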