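/-
FTC : the change of the logarithm of the cross ratio under a C² map is the integral of `kap`.
PROOFS.
* E_step_eq.  Put D x y = g y - g x (> 0 for x < y, Good.mono).  For fixed x in [a,b] the function y ↦ -(g' x) / (g y - g x) + 1 / (y - x) has on [c,d] (c > x) the
  derivative kap g x y (continuous in y: g' is continuous, Good.contDeriv), so the inner integral is
  F x = -(g' x) / (g d - g x) + 1 / (d - x) + (g' x) / (g c - g x) - 1 / (c - x)   (intervalIntegral.integral_eq_sub_of_hasDerivAt, ContinuousOn.intervalIntegrable).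
  F is continuous on [a,b] and is the derivative of x ↦ log (g d - g x) - log (d - x) - log (g c - g x) + log (c - x) (b < c).
  So the double integral is the difference of this function between b and a, which is E (g a) (g b) (g c) (g d) - E a b c d.
* nu_step.  |LHS| ≤ ∫⁻ x in Ioo a b, ∫⁻ y in Ioo c d, ‖kap g x y‖ₑ (intervalIntegral.integral_of_le, integral over Ioc = Ioo, enorm_integral_le_lintegral_enorm twice,
  Real.enorm_eq_ofReal_abs), and this is ∫⁻ over the product (lintegral_prod / Measure.prod_restrict, kap g is measurable on ℝ × ℝ: quotients of continuous functions) ≤ nu A (rect)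
  (withDensity_apply on a measurable set, one term of the sum ≤ the sum).
-/
import Pool.Agent.H59.CR.Defs

set_option autoImplicit false

namespace Pool.Agent.H59.CR

open Set MeasureTheory Pool.Agent.H42.EM

lemma Ftc_inner {g : Equiv.Perm ℝ} (hg : Good g) {x c d : ℝ} (hxc : x < c) (hcd : c < d) :
    ∫ y in c..d, kap g x y =
      (-(deriv (⇑g) x) / (g d - g x) + 1 / (d - x)) -
        (-(deriv (⇑g) x) / (g c - g x) + 1 / (c - x)) := by
  have hy0 : ∀ y ∈ uIcc c d, x < y := by
    intro y hy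
    rw [uIcc_of_le hcd.le] at hy
    exact lt_of_lt_of_le hxc hy.1
  have h1 : ∀ y ∈ uIcc c d, g y - g x ≠ 0 := fun y hy => (sub_pos.2 (hg.mono (hy0 y hy))).ne'
  have h2 : ∀ y ∈ uIcc c d, y - x ≠ 0 := fun y hy => (sub_pos.2 (hy0 y hy)).ne'
  refine intervalIntegral.integral_eq_sub_of_hasDerivAt
    (f := fun y => -(deriv (⇑g) x) / (g y - g x) + 1 / (y - x)) ?_ ?_
  · intro y hy
    have hgy : HasDerivAt (⇑g) (deriv (⇑g) y) y := (hg.diff y).hasDerivAt
    have e1 := (hasDerivAt_const y (-(deriv (⇑g) x))).div (hgy.sub_const (g x)) (h1 y hy)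
    have e2 := (hasDerivAt_const y (1 : ℝ)).div ((hasDerivAt_id y).sub_const x) (h2 y hy)
    refine (e1.add e2).congr_deriv ?_
    have a1 := h1 y hy
    have a2 := h2 y hy
    simp only [kap, id]
    field_simp
    ring
  · apply ContinuousOn.intervalIntegrable
    have c1 : Continuous (⇑g) := hg.cont
    have c2 : Continuous (deriv (⇑g)) := hg.contDeriv
    unfold kap
    refine ContinuousOn.sub (ContinuousOn.div (by fun_prop) (by fun_prop) ?_)
      (ContinuousOn.div (by fun_prop) (by fun_prop) ?_)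
    · exact fun y hy => pow_ne_zero _ (h1 y hy)
    · exact fun y hy => pow_ne_zero _ (h2 y hy)

theorem E_step_eq {g : Equiv.Perm ℝ} (hg : Good g) {a b c d : ℝ} (hab : a < b) (hbc : b < c)
    (hcd : c < d) :
    E (g a) (g b) (g c) (g d) - E a b c d = ∫ x in a..b, ∫ y in c..d, kap g x y := by
  have hx0 : ∀ x ∈ uIcc a b, x < c := by
    intro x hx
    rw [uIcc_of_le hab.le] at hx
    exact lt_of_le_of_lt hx.2 hbc
  have hc : ∀ x ∈ uIcc a b, g c - g x ≠ 0 := fun x hx => (sub_pos.2 (hg.mono (hx0 x hx))).ne'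
  have hd : ∀ x ∈ uIcc a b, g d - g x ≠ 0 := fun x hx =>
    (sub_pos.2 (hg.mono ((hx0 x hx).trans hcd))).ne'
  have hc' : ∀ x ∈ uIcc a b, c - x ≠ 0 := fun x hx => (sub_pos.2 (hx0 x hx)).ne'
  have hd' : ∀ x ∈ uIcc a b, d - x ≠ 0 := fun x hx => (sub_pos.2 ((hx0 x hx).trans hcd)).ne'
  have e : ∫ x in a..b, ∫ y in c..d, kap g x y = ∫ x in a..b,
      ((-(deriv (⇑g) x) / (g d - g x) + 1 / (d - x)) -
        (-(deriv (⇑g) x) / (g c - g x) + 1 / (c - x))) :=
    intervalIntegral.integral_congr fun x hx => Ftc_inner hg (hx0 x hx) hcd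
  rw [e, intervalIntegral.integral_eq_sub_of_hasDerivAt
    (f := fun x => Real.log (g d - g x) - Real.log (d - x) - Real.log (g c - g x) +
      Real.log (c - x))]
  · simp only [E]
    ring
  · intro x hx
    have hgx : HasDerivAt (⇑g) (deriv (⇑g) x) x := (hg.diff x).hasDerivAt
    have e1 := (hgx.const_sub (g d)).log (hd x hx)
    have e2 := ((hasDerivAt_id x).const_sub d).log (hd' x hx)
    have e3 := (hgx.const_sub (g c)).log (hc x hx)
    have e4 := ((hasDerivAt_id x).const_sub c).log (hc' x hx)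
    refine (((e1.sub e2).sub e3).add e4).congr_deriv ?_
    simp only [id]
    ring
  · apply ContinuousOn.intervalIntegrable
    have c1 : Continuous (⇑g) := hg.cont
    have c2 : Continuous (deriv (⇑g)) := hg.contDeriv
    refine ContinuousOn.sub (ContinuousOn.add (ContinuousOn.div (by fun_prop) (by fun_prop) ?_)
      (ContinuousOn.div (by fun_prop) (by fun_prop) ?_))
      (ContinuousOn.add (ContinuousOn.div (by fun_prop) (by fun_prop) ?_)
      (ContinuousOn.div (by fun_prop) (by fun_prop) ?_))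
    · exact hd
    · exact hd'
    · exact hc
    · exact hc'

lemma Ftc_meas {g : Equiv.Perm ℝ} (hg : Good g) :
    Measurable fun p : ℝ × ℝ => ‖kap g p.1 p.2‖ₑ := by
  have c1 : Measurable (⇑g) := hg.cont.measurable
  have c2 : Measurable (deriv (⇑g)) := hg.contDeriv.measurable
  unfold kap
  fun_prop

theorem nu_step (A : Sys) (i : Fin A.n) {a b c d : ℝ} (hab : a < b) (hbc : b < c) (hcd : c < d) :
    ENNReal.ofReal |E (A.f i a) (A.f i b) (A.f i c) (A.f i d) - E a b c d| ≤
      nu A (Ioo a b ×ˢ Ioo c d) := by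
  rw [E_step_eq (A.hf i) hab hbc hcd, ← Real.enorm_eq_ofReal_abs,
    intervalIntegral.integral_of_le hab.le, nu,
    withDensity_apply _ (measurableSet_Ioo.prod measurableSet_Ioo)]
  calc ‖∫ x in Ioc a b, ∫ y in c..d, kap (A.f i) x y‖ₑ
      ≤ ∫⁻ x in Ioc a b, ‖∫ y in c..d, kap (A.f i) x y‖ₑ := enorm_integral_le_lintegral_enorm _
    _ ≤ ∫⁻ x in Ioc a b, ∫⁻ y in Ioc c d, ‖kap (A.f i) x y‖ₑ := by
        refine lintegral_mono fun x => ?_
        rw [intervalIntegral.integral_of_le hcd.le]
        exact enorm_integral_le_lintegral_enorm _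
    _ = ∫⁻ x in Ioo a b, ∫⁻ y in Ioo c d, ‖kap (A.f i) x y‖ₑ := by
        rw [Measure.restrict_congr_set (Ioo_ae_eq_Ioc (a := a) (b := b)).symm]
        refine lintegral_congr fun x => ?_
        rw [Measure.restrict_congr_set (Ioo_ae_eq_Ioc (a := c) (b := d)).symm]
    _ = ∫⁻ p in Ioo a b ×ˢ Ioo c d, ‖kap (A.f i) p.1 p.2‖ₑ := by
        rw [Measure.volume_eq_prod, ← Measure.prod_restrict,
          lintegral_prod _ (Ftc_meas (A.hf i)).aemeasurable]
    _ ≤ ∫⁻ p in Ioo a b ×ˢ Ioo c d, ∑ j, ‖kap (A.f j) p.1 p.2‖ₑ := by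
        refine lintegral_mono fun p => ?_
        exact Finset.single_le_sum (f := fun j => ‖kap (A.f j) p.1 p.2‖ₑ) (fun _ _ => zero_le)
          (Finset.mem_univ i)

end Pool.Agent.H59.CR
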