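/-
NUD : the sum of the measures of rectangles which are disjoint modulo integer translations.
PROOFS.
* kap_per: g (x + 1) = g x + 1 and deriv g (x + 1) = deriv g x (Good.deriv_add_int with k = 1; or for all integers k: Good.add_int).
* nu_trans: withDensity_apply (measurable rectangle); the map p ↦ p + (k, k) preserves volume on ℝ × ℝ (measurePreserving_add_right), the density is invariant by kap_per; the preimage of the
  translated rectangle is the rectangle (MeasurePreserving.setLIntegral_comp_preimage or lintegral_add_right_eq_self with indicators).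
* nu_sum: for j ∈ s let k j = -⌊a j⌋, so 0 ≤ a j + k j < 1.  The translated rectangles R j = Ioo (a j + k j) (b j + k j) ×ˢ Ioo (c j + k j) (d j + k j) are pairwise disjoint
  (hd with the integer k j - k i, after translating by k i), measurable, contained in Dom (0 ≤ a j + k j < x < b j + k j < a j + k j + 1 < 2, x < b j + k j < c j + k j < y < d j + k j ≤ a j + k j + 1 < x + 1).
  So the sum of nu (R j) = nu (⋃ R j) ≤ nu Dom (measure_biUnion_finset), and nu (R j) = nu of the original one by nu_trans.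
-/
import Pool.Agent.H59.CR.Defs

set_option autoImplicit false

namespace Pool.Agent.H59.CR

open Set MeasureTheory Pool.Agent.H42.EM

lemma kap_per {g : Equiv.Perm ℝ} (hg : Good g) (x y : ℝ) (k : ℤ) : kap g (x + k) (y + k) = kap g x y := by
  unfold kap
  rw [hg.deriv_add_int, hg.deriv_add_int, hg.add_int, hg.add_int]
  congr 2
  · ring
  · ring

lemma nu_trans (A : Sys) (a b c d : ℝ) (k : ℤ) :
    nu A (Ioo (a + k) (b + k) ×ˢ Ioo (c + k) (d + k)) = nu A (Ioo a b ×ˢ Ioo c d) := by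
  unfold nu
  rw [withDensity_apply _ (measurableSet_Ioo.prod measurableSet_Ioo),
    withDensity_apply _ (measurableSet_Ioo.prod measurableSet_Ioo)]
  have h1 := (measurePreserving_add_right (volume : Measure (ℝ × ℝ)) ((k : ℝ), (k : ℝ))).setLIntegral_comp_preimage_emb
    (measurableEmbedding_addRight _) (fun p : ℝ × ℝ => ∑ i, ‖kap (A.f i) p.1 p.2‖ₑ)
    (Ioo (a + (k : ℝ)) (b + k) ×ˢ Ioo (c + (k : ℝ)) (d + k))
  rw [← h1]
  have h2 : (fun x : ℝ × ℝ => x + ((k : ℝ), (k : ℝ))) ⁻¹' (Ioo (a + (k : ℝ)) (b + k) ×ˢ Ioo (c + (k : ℝ)) (d + k))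
      = Ioo a b ×ˢ Ioo c d := by
    ext p
    simp only [mem_preimage, mem_prod, mem_Ioo, Prod.fst_add, Prod.snd_add, add_lt_add_iff_right]
  rw [h2]
  apply lintegral_congr
  intro p
  apply Finset.sum_congr rfl
  intro i _
  rw [Prod.fst_add, Prod.snd_add]
  simp only
  rw [kap_per (A.hf i)]

theorem nu_sum (A : Sys) (s : Finset ℕ) (a b c d : ℕ → ℝ)
    (h : ∀ j ∈ s, a j < b j ∧ b j < c j ∧ c j < d j ∧ d j ≤ a j + 1)
    (hd : ∀ i ∈ s, ∀ j ∈ s, i ≠ j → ∀ k : ℤ, Disjoint (Ioo (a i) (b i) ×ˢ Ioo (c i) (d i))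
      (Ioo (a j + k) (b j + k) ×ˢ Ioo (c j + k) (d j + k))) :
    ∑ j ∈ s, nu A (Ioo (a j) (b j) ×ˢ Ioo (c j) (d j)) ≤ nu A Dom := by
  classical
  let R : ℕ → Set (ℝ × ℝ) := fun j => Ioo (a j + ((-⌊a j⌋ : ℤ) : ℝ)) (b j + ((-⌊a j⌋ : ℤ) : ℝ)) ×ˢ
    Ioo (c j + ((-⌊a j⌋ : ℤ) : ℝ)) (d j + ((-⌊a j⌋ : ℤ) : ℝ))
  have h1 : ∑ j ∈ s, nu A (Ioo (a j) (b j) ×ˢ Ioo (c j) (d j)) = ∑ j ∈ s, nu A (R j) :=
    Finset.sum_congr rfl fun j _ => (nu_trans A (a j) (b j) (c j) (d j) (-⌊a j⌋)).symm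
  rw [h1, ← measure_biUnion_finset]
  · apply measure_mono
    intro p hp
    rw [mem_iUnion₂] at hp
    obtain ⟨j, hj, hp⟩ := hp
    obtain ⟨h2, h3, h4, h5⟩ := h j hj
    simp only [R, mem_prod, mem_Ioo] at hp
    obtain ⟨⟨h6, h7⟩, h8, h9⟩ := hp
    have h10 := Int.floor_le (a j)
    have h11 := Int.lt_floor_add_one (a j)
    push_cast at h6 h7 h8 h9
    refine ⟨?_, ?_, ?_, ?_⟩
    · linarith
    · linarith
    · linarith
    · linarith
  · intro i hi j hj hij
    rw [Function.onFun, Set.disjoint_left]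
    intro p hpi hpj
    have h2 := hd i hi j hj hij (-⌊a j⌋ - -⌊a i⌋)
    rw [Set.disjoint_left] at h2
    simp only [R, mem_prod, mem_Ioo] at hpi hpj
    push_cast at hpi hpj
    apply h2 (a := p - (((-⌊a i⌋ : ℤ) : ℝ), ((-⌊a i⌋ : ℤ) : ℝ)))
    · simp only [mem_prod, mem_Ioo, Prod.fst_sub, Prod.snd_sub]
      push_cast
      refine ⟨⟨?_, ?_⟩, ?_, ?_⟩ <;> linarith [hpi.1.1, hpi.1.2, hpi.2.1, hpi.2.2]
    · simp only [mem_prod, mem_Ioo, Prod.fst_sub, Prod.snd_sub]
      push_cast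
      refine ⟨⟨?_, ?_⟩, ?_, ?_⟩ <;> linarith [hpj.1.1, hpj.1.2, hpj.2.1, hpj.2.2]
  · intro j _
    exact measurableSet_Ioo.prod measurableSet_Ioo

end Pool.Agent.H59.CR
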