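/-
PAT : the cross ratio along a path without returns.
PROOF.  Let Q j = Ioo (w j x) (w j a) ×ˢ Ioo (w j b) (w j z) for j ≤ n; w j is Good (A.good (hw.mem hj)), strictly increasing, w j (x + 1) = w j x + 1.
Disjointness: for i < j ≤ n and k : ℤ, Q i and Q j + (k, k) are disjoint: for a common point (p, q): p = w i u1 with x < u1 < a, q = w i u2 with b < u2 < z (surjectivity of w i), and
p < w j a + k < w j b + k < q.  So u = (w i)⁻¹ (w j a + k) lies in (u1, u2), x < u < z and w i u = w j a + k: contradiction to hzt.  The case i > j follows by translating by -k.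
By nu_sum (s = range (n + 1)) the sum of nu (Q j), j ≤ n, is ≤ nu A Dom.  For j < n: w (j + 1) = s * w j, s ∈ A.S:
 s = A.f i: ofReal |E_{j+1} - E_j| ≤ nu (Q j) by nu_step at (w j x, w j a, w j b, w j z);
 s = (A.f i)⁻¹: w j = A.f i ∘ w (j + 1), so ofReal |E_j - E_{j+1}| ≤ nu (Q (j+1)) by nu_step.
In both cases ≤ nu (Q j) + nu (Q (j+1)); the sum over j < n is ≤ 2 nu A Dom (finite by hfin), and |E_n - E_0| ≤ ∑ |E_{j+1} - E_j| (Finset.sum_range_sub, Finset.abs_sum_le_sum_abs);
convert with ENNReal.ofReal_sum_of_nonneg, ENNReal.toReal.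
-/
import Pool.Agent.H59.CR.Ftc
import Pool.Agent.H59.CR.Nud

set_option autoImplicit false

namespace Pool.Agent.H59.CR

open Set MeasureTheory Pool.Agent.H42.EM

theorem path_E (A : Sys) (hfin : nu A Dom ≠ ⊤) {n : ℕ} {w : ℕ → Equiv.Perm ℝ} (hw : A.Path n w)
    {x a b z : ℝ} (hxa : x < a) (hab : a < b) (hbz : b < z) (hz : z < x + 1)
    (hzt : ∀ i j, i < j → j ≤ n → ∀ (k : ℤ) (u : ℝ), x < u → u < z → w i u ≠ w j a + k) :
    |E (w n x) (w n a) (w n b) (w n z) - E x a b z| ≤ 2 * K A := by
  have hgood : ∀ j, j ≤ n → Good (w j) := fun j hj => A.good (hw.mem hj)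
  -- order of the four points
  have hord : ∀ j, j ≤ n → w j x < w j a ∧ w j a < w j b ∧ w j b < w j z ∧ w j z < w j x + 1 := by
    intro j hj
    have hm := (hgood j hj).mono
    refine ⟨hm hxa, hm hab, hm hbz, ?_⟩
    have h1 := hm hz
    rwa [(hgood j hj).2.2 x] at h1
  -- disjointness for i < j
  have hdis : ∀ i j, i < j → j ≤ n → ∀ (k : ℤ) (p q : ℝ), w i x < p → q < w i z →
      p < w j a + k → w j b + k < q → False := by
    intro i j hij hj k p q h1 h2 h3 h4
    have hm := (hgood i (by omega)).mono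
    have hab' := (hord j hj).2.1
    refine hzt i j hij hj k ((w i).symm (w j a + k)) ?_ ?_ ?_
    · rw [← hm.lt_iff_lt, Equiv.apply_symm_apply]
      linarith
    · rw [← hm.lt_iff_lt, Equiv.apply_symm_apply]
      linarith
    · rw [Equiv.apply_symm_apply]
  have hsum := nu_sum A (Finset.range (n + 1)) (fun j => w j x) (fun j => w j a)
    (fun j => w j b) (fun j => w j z)
    (by
      intro j hj
      have hj' : j ≤ n := by
        have := Finset.mem_range.1 hj
        omega
      obtain ⟨h1, h2, h3, h4⟩ := hord j hj'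
      exact ⟨h1, h2, h3, h4.le⟩)
    (by
      intro i hi j hj hij k
      have hi' : i ≤ n := by
        have := Finset.mem_range.1 hi
        omega
      have hj' : j ≤ n := by
        have := Finset.mem_range.1 hj
        omega
      rw [Set.disjoint_left]
      rintro ⟨p, q⟩ ⟨⟨h1, h2⟩, h3, h4⟩ ⟨⟨h5, h6⟩, h7, h8⟩
      simp only at h1 h2 h3 h4 h5 h6 h7 h8
      rcases Nat.lt_or_gt_of_ne hij with hlt | hlt
      · exact hdis i j hlt hj' k p q h1 h4 h6 h7
      · refine hdis j i hlt hi' (-k) (p - k) (q - k) ?_ ?_ ?_ ?_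
        · linarith
        · linarith
        · push_cast
          linarith
        · push_cast
          linarith)
  -- one step
  have hstep : ∀ j, j < n →
      ENNReal.ofReal |E (w (j + 1) x) (w (j + 1) a) (w (j + 1) b) (w (j + 1) z) -
        E (w j x) (w j a) (w j b) (w j z)| ≤
      nu A (Ioo (w j x) (w j a) ×ˢ Ioo (w j b) (w j z)) +
        nu A (Ioo (w (j + 1) x) (w (j + 1) a) ×ˢ Ioo (w (j + 1) b) (w (j + 1) z)) := by
    intro j hj
    obtain ⟨s, hs, he⟩ := hw.2 j hj
    obtain ⟨i, hi⟩ := hs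
    rcases hi with rfl | rfl
    · obtain ⟨h1, h2, h3, h4⟩ := hord j hj.le
      refine le_trans ?_ (le_add_of_nonneg_right zero_le)
      rw [he]
      exact nu_step A i h1 h2 h3
    · obtain ⟨h1, h2, h3, h4⟩ := hord (j + 1) hj
      refine le_trans ?_ (le_add_of_nonneg_left zero_le)
      have he' : ∀ t, w j t = A.f i (w (j + 1) t) := by
        intro t
        rw [he, Equiv.Perm.mul_apply]; exact ((A.f i).apply_symm_apply _).symm
      rw [abs_sub_comm, he' x, he' a, he' b, he' z]
      exact nu_step A i h1 h2 h3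
  have hall : ∑ j ∈ Finset.range n,
      ENNReal.ofReal |E (w (j + 1) x) (w (j + 1) a) (w (j + 1) b) (w (j + 1) z) -
        E (w j x) (w j a) (w j b) (w j z)| ≤ 2 * nu A Dom := by
    refine le_trans (Finset.sum_le_sum (fun j hj => hstep j (Finset.mem_range.1 hj))) ?_
    rw [Finset.sum_add_distrib, two_mul]
    refine add_le_add (le_trans ?_ hsum) (le_trans ?_ hsum)
    · rw [Finset.sum_range_succ]
      exact le_add_of_nonneg_right zero_le
    · rw [Finset.sum_range_succ']
      exact le_add_of_nonneg_right zero_le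
  have htel : E (w n x) (w n a) (w n b) (w n z) - E x a b z =
      ∑ j ∈ Finset.range n, (E (w (j + 1) x) (w (j + 1) a) (w (j + 1) b) (w (j + 1) z) -
        E (w j x) (w j a) (w j b) (w j z)) := by
    rw [Finset.sum_range_sub (fun j => E (w j x) (w j a) (w j b) (w j z))]
    simp [hw.1]
  rw [htel]
  refine le_trans (Finset.abs_sum_le_sum_abs _ _) ?_
  rw [← ENNReal.ofReal_sum_of_nonneg (fun j _ => abs_nonneg _)] at hall
  have hfin2 : 2 * nu A Dom ≠ ⊤ := ENNReal.mul_ne_top (by norm_num) hfin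
  have h5 := (ENNReal.ofReal_le_iff_le_toReal hfin2).1 hall
  rw [ENNReal.toReal_mul] at h5
  simpa [K] using h5

end Pool.Agent.H59.CR
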