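/-
KEY : the main estimate: a word-minimal gap is not small compared with the smaller side.
PROOF.  w n is Good.  E (w n x) (w n a) (w n b) (w n z) ≤ - log (b₀ - a₀): log (w n b - w n x) ≤ log (w n z - w n x), log (w n z - w n a) ≤ 0 since 0 < w n z - w n a < w n (x + 1) - w n x = 1,
w n b - w n a = b₀ - a₀.  By path_E: E x a b z ≤ - log (b₀ - a₀) + 2 K.  Taking exponentials: (b - x) (z - a) (b₀ - a₀) ≤ exp (2 K) (b - a) (z - x).
With m = min (a - x) (z - b): m (z - x) ≤ 2 (b - x) (z - a): if a - x ≤ z - b then z - x = (z - a) + (a - x) ≤ 2 (z - a) and m = a - x ≤ b - x; otherwise z - x = (z - b) + (b - x) ≤ 2 (b - x)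
and m = z - b ≤ z - a.  So m (b₀ - a₀) ≤ 2 exp (2 K) (b - a) (divide by z - x > 0), i.e. cc * m ≤ b - a.
-/
import Pool.Agent.H59.CR.Pat

set_option autoImplicit false

namespace Pool.Agent.H59.CR

open Set MeasureTheory Pool.Agent.H42.EM

theorem key (A : Sys) (hfin : nu A Dom ≠ ⊤) {a₀ b₀ : ℝ} (h₀ : a₀ < b₀) {n : ℕ} {w : ℕ → Equiv.Perm ℝ}
    (hw : A.Path n w) {x a b z : ℝ} (hxa : x < a) (hab : a < b) (hbz : b < z) (hz : z < x + 1)
    (hzt : ∀ i j, i < j → j ≤ n → ∀ (k : ℤ) (u : ℝ), x < u → u < z → w i u ≠ w j a + k)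
    {k : ℤ} (ha : w n a = a₀ + k) (hb : w n b = b₀ + k) :
    cc A a₀ b₀ * min (a - x) (z - b) ≤ b - a := by
  have hg : Good (w n) := A.good (hw.mem le_rfl)
  have hm := hg.mono
  have h1 : w n x < w n a := hm hxa
  have h2 : w n a < w n b := hm hab
  have h3 : w n b < w n z := hm hbz
  have h4 : w n z < w n x + 1 := by
    have h := hm hz
    rwa [hg.2.2 x] at h
  have hE := (abs_le.1 (path_E A hfin hw hxa hab hbz hz hzt)).1
  have hba : w n b - w n a = b₀ - a₀ := by
    rw [ha, hb]
    ring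
  have l1 : Real.log (w n b - w n x) ≤ Real.log (w n z - w n x) :=
    Real.log_le_log (by linarith) (by linarith)
  have l2 : Real.log (w n z - w n a) ≤ 0 := Real.log_nonpos (by linarith) (by linarith)
  unfold E at hE
  rw [hba] at hE
  -- the logarithmic estimate
  have p1 : 0 < b - x := by linarith
  have p2 : 0 < z - a := by linarith
  have p3 : 0 < b₀ - a₀ := by linarith
  have p4 : 0 < b - a := by linarith
  have p5 : 0 < z - x := by linarith
  have h5 : Real.log ((b - x) * (z - a) * (b₀ - a₀)) ≤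
      Real.log (Real.exp (2 * K A) * (b - a) * (z - x)) := by
    rw [Real.log_mul (by positivity) p3.ne', Real.log_mul p1.ne' p2.ne',
      Real.log_mul (by positivity) p5.ne', Real.log_mul (Real.exp_pos _).ne' p4.ne',
      Real.log_exp]
    linarith
  have h6 : (b - x) * (z - a) * (b₀ - a₀) ≤ Real.exp (2 * K A) * (b - a) * (z - x) :=
    (Real.log_le_log_iff (by positivity) (by positivity)).1 h5
  -- the minimum
  set m := min (a - x) (z - b) with hmdef
  have hm1 : m ≤ a - x := min_le_left _ _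
  have hm2 : m ≤ z - b := min_le_right _ _
  have hm0 : 0 < m := lt_min (by linarith) (by linarith)
  have h7 : m * (z - x) ≤ 2 * ((b - x) * (z - a)) := by
    rcases le_total (a - x) (z - b) with h | h
    · have e1 : z - x ≤ 2 * (z - a) := by linarith
      have e2 : m ≤ b - x := by linarith
      calc m * (z - x) ≤ (b - x) * (2 * (z - a)) :=
            mul_le_mul e2 e1 p5.le p1.le
        _ = 2 * ((b - x) * (z - a)) := by ring
    · have e1 : z - x ≤ 2 * (b - x) := by linarith
      have e2 : m ≤ z - a := by linarith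
      calc m * (z - x) ≤ (z - a) * (2 * (b - x)) :=
            mul_le_mul e2 e1 p5.le p2.le
        _ = 2 * ((b - x) * (z - a)) := by ring
  have h8 : m * (b₀ - a₀) ≤ 2 * Real.exp (2 * K A) * (b - a) := by
    have h9 : (m * (b₀ - a₀)) * (z - x) ≤ (2 * Real.exp (2 * K A) * (b - a)) * (z - x) := by
      calc (m * (b₀ - a₀)) * (z - x) = (m * (z - x)) * (b₀ - a₀) := by ring
        _ ≤ (2 * ((b - x) * (z - a))) * (b₀ - a₀) := mul_le_mul_of_nonneg_right h7 p3.le
        _ = 2 * ((b - x) * (z - a) * (b₀ - a₀)) := by ring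
        _ ≤ 2 * (Real.exp (2 * K A) * (b - a) * (z - x)) := by linarith
        _ = (2 * Real.exp (2 * K A) * (b - a)) * (z - x) := by ring
    exact le_of_mul_le_mul_right h9 p5
  have h10 : Real.exp (-(2 * K A)) * Real.exp (2 * K A) = 1 := by
    rw [← Real.exp_add, neg_add_cancel, Real.exp_zero]
  unfold cc
  calc (b₀ - a₀) * Real.exp (-(2 * K A)) / 2 * m
      = Real.exp (-(2 * K A)) / 2 * (m * (b₀ - a₀)) := by ring
    _ ≤ Real.exp (-(2 * K A)) / 2 * (2 * Real.exp (2 * K A) * (b - a)) :=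
        mul_le_mul_of_nonneg_left h8 (by positivity)
    _ = (Real.exp (-(2 * K A)) * Real.exp (2 * K A)) * (b - a) := by ring
    _ = b - a := by rw [h10, one_mul]

end Pool.Agent.H59.CR
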