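/-
LEVB : the next gap of smaller level.
PROOFS.
* Lv_next: there is an integer k with x < a₀ + k < x + 1 (k = ⌊x - a₀⌋ + 1; a₀ + k ≤ x + 1, and equality would give x = a₀ + (k - 1)).  Lv A a₀ 0 (a₀ + k) (path of length 0).  As 0 < n, hmin excludes
  a₀ + k ∈ (x, a], so a < a₀ + k.  F = {u ∈ Icc a (x + 1) | ∃ m ≤ n - 1, Lv A a₀ m u} is finite (Lv_fin) and contains a₀ + k; a ∉ F by hmin.  Let a' be its minimum (Set.exists_min_image):
  a < a' ≤ a₀ + k < x + 1.  Let m be the least level of a' (Nat.find), m < n.  First claim: u ∈ (x, a'), m' < n, Lv m' u: if u ≤ a contradiction to hmin, if u > a contradiction to the minimality of a'.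
  Second claim: for u < a' use the first claim (m' < m < n), for u = a' the minimality of m.
* Lv_first: by AccR there is y ∈ L, x < y < t; A.dense_orbit for a₀ ∈ L, y and ε = min (y - x) (t - y) gives g ∈ G with g a₀ ∈ (x, t), A.exists_path for g⁻¹: Lv n (g a₀) for some n (see the beginning of the
  proof of exists_short in Pool/Agent/H46/TT/P1.lean).  Take the least n with ∃ u ∈ Ioo x t, Lv A a₀ n u, and a such a u.
-/
import Pool.Agent.H59.CR.LevA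

set_option autoImplicit false

namespace Pool.Agent.H59.CR

open Set MeasureTheory Pool.Agent.H42.EM

theorem Lv_next (A : Sys) {a₀ : ℝ} {x a : ℝ} (hx : ∀ k : ℤ, x ≠ a₀ + k) (hxa : x < a) {n : ℕ}
    (hn : 0 < n) (hmin : ∀ u ∈ Ioc x a, ∀ m < n, ¬ Lv A a₀ m u) :
    ∃ (m : ℕ) (a' : ℝ), m < n ∧ Lv A a₀ m a' ∧ a < a' ∧ a' < x + 1 ∧
      (∀ u ∈ Ioo x a', ∀ m' < n, ¬ Lv A a₀ m' u) ∧ ∀ u ∈ Ioc x a', ∀ m' < m, ¬ Lv A a₀ m' u := by
  classical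
  have hf1 := Int.floor_le (x - a₀)
  have hf2 := Int.lt_floor_add_one (x - a₀)
  have hL0 : Lv A a₀ 0 (a₀ + ((⌊x - a₀⌋ + 1 : ℤ) : ℝ)) :=
    ⟨fun _ => 1, ⌊x - a₀⌋ + 1, ⟨rfl, fun i hi => absurd hi (by omega)⟩, by simp⟩
  have hxk : x < a₀ + ((⌊x - a₀⌋ + 1 : ℤ) : ℝ) := by push_cast; linarith
  have hkx : a₀ + ((⌊x - a₀⌋ + 1 : ℤ) : ℝ) < x + 1 := by
    have h1 := hx ⌊x - a₀⌋
    have h2 : a₀ + (⌊x - a₀⌋ : ℝ) < x := lt_of_le_of_ne (by linarith) (fun h => h1 h.symm)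
    push_cast
    linarith
  have hak : a < a₀ + ((⌊x - a₀⌋ + 1 : ℤ) : ℝ) := by
    by_contra hcon
    exact hmin _ ⟨hxk, not_lt.1 hcon⟩ 0 hn hL0
  have hF := Lv_fin A a₀ (n - 1) a (x + 1)
  obtain ⟨a', ha', hle⟩ := Set.exists_min_image _ id hF
    ⟨a₀ + ((⌊x - a₀⌋ + 1 : ℤ) : ℝ), ⟨hak.le, hkx.le⟩, 0, Nat.zero_le _, hL0⟩
  have hlek := hle _ (show a₀ + ((⌊x - a₀⌋ + 1 : ℤ) : ℝ) ∈ _ from
    ⟨⟨hak.le, hkx.le⟩, 0, Nat.zero_le _, hL0⟩)
  simp only [id] at hlek hle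
  obtain ⟨⟨haa', hax'⟩, hexm⟩ := ha'
  have haa : a < a' := by
    refine lt_of_le_of_ne haa' fun h => ?_
    obtain ⟨m, hm, hL⟩ := hexm
    exact hmin a ⟨hxa, le_rfl⟩ m (by omega) (h ▸ hL)
  have hlev : ∃ m, Lv A a₀ m a' := ⟨hexm.choose, hexm.choose_spec.2⟩
  have hspec := Nat.find_spec hlev
  have hmn : Nat.find hlev < n := by
    have h1 := Nat.find_min' hlev hexm.choose_spec.2
    have h2 := hexm.choose_spec.1
    omega
  have hc1 : ∀ u ∈ Ioo x a', ∀ m' < n, ¬ Lv A a₀ m' u := by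
    intro u hu m' hm' hL
    rcases le_or_gt u a with h | h
    · exact hmin u ⟨hu.1, h⟩ m' hm' hL
    · have h3 := hle u ⟨⟨h.le, by linarith [hu.2]⟩, m', by omega, hL⟩
      linarith [hu.2]
  refine ⟨Nat.find hlev, a', hmn, hspec, haa, by linarith, hc1, ?_⟩
  intro u hu m' hm' hL
  rcases lt_or_eq_of_le hu.2 with h | h
  · exact hc1 u ⟨hu.1, h⟩ m' (by omega) hL
  · exact Nat.find_min hlev hm' (h ▸ hL)

theorem Lv_first (A : Sys) {a₀ b₀ : ℝ} (h₀ : IsGap A.L a₀ b₀) {x t : ℝ} (hx : AccR A.L x) (ht : x < t) :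
    ∃ (n : ℕ) (a : ℝ), Lv A a₀ n a ∧ x < a ∧ a < t ∧ ∀ u ∈ Ioc x a, ∀ m < n, ¬ Lv A a₀ m u := by
  classical
  obtain ⟨y, hy, hyL⟩ := hx (t - x) (by linarith)
  have hyt : y < t := by linarith [hy.2]
  have hex : ∃ n : ℕ, ∃ u ∈ Ioo x t, Lv A a₀ n u := by
    obtain ⟨g, hg, hlt⟩ := A.dense_orbit h₀.2.1 hyL (ε := min (y - x) (t - y))
      (lt_min (by linarith [hy.1]) (by linarith))
    obtain ⟨n, w, k, hw, hgw⟩ := A.exists_path (inv_mem hg)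
    have h1 := abs_lt.1 (lt_of_lt_of_le hlt (min_le_left _ _))
    have h2 := abs_lt.1 (lt_of_lt_of_le hlt (min_le_right _ _))
    refine ⟨n, g a₀, ⟨by linarith [h1.1], by linarith [h2.2]⟩, w, -k, hw, ?_⟩
    have e1 : w n = (T ^ (-k)) * g⁻¹ := by
      rw [hgw, ← mul_assoc, ← zpow_add, neg_add_cancel, zpow_zero, one_mul]
    rw [e1, Equiv.Perm.mul_apply, T_zpow]
    simp
  obtain ⟨u, hu, hL⟩ := Nat.find_spec hex
  refine ⟨Nat.find hex, u, hL, hu.1, hu.2, ?_⟩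
  intro v hv m hm hLv
  exact Nat.find_min hex hm ⟨v, ⟨hv.1, by linarith [hv.2, hu.2]⟩, hLv⟩

end Pool.Agent.H59.CR
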