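/-
CHN : walking to the right along gaps of decreasing level.
PROOF.  Put c = cc A a₀ b₀.  c > 0, c ≤ 1/2 (b₀ - a₀ ≤ 1 by IsGap.len_le_one, exp (-(2 K)) ≤ 1).  Strong induction on n.  Let (w, k, b) be given by Lv_gap.
If c l ≤ b - a: first alternative with (a, b).  Otherwise b - a < c l.  n ≠ 0: for n = 0, a = a₀ + k' (Lv_zero), so (a, b) = (a₀ + k', b₀ + k') (IsGap.add_int, IsGap.eq_of_left) has length b₀ - a₀ ≥ c l.
So n > 0; (m, a') by Lv_next.  a' ∈ L (Lv_gap for a'), a < a', so b ≤ a'; b ≠ a' since L accumulates at b from the right (Sys.accR_of_gap) and not at a' (left end point of a gap).  So b < a'.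
key for x < a < b < a' < x + 1 (zero tolerance from Lv_zt with z = a'): c min (a - x) (a' - b) ≤ b - a < c l.  As a - x ≥ l, the minimum is a' - b (otherwise c l ≤ b - a): c (a' - b) ≤ b - a.
Hence c / 2 * (a' - a) ≤ b - a  (c (a' - a) = c (a' - b) + c (b - a) ≤ 2 (b - a), c ≤ 1).
 T ≤ b: Ioo a T ⊆ Icc a T \ L has volume T - a ≥ c/2 (T - a).
 b < T ≤ a': Ioo a b ⊆ Icc a T \ L, volume b - a ≥ c/2 (a' - a) ≥ c/2 (T - a).
 a' < T: induction hypothesis for (m, a') (x + l ≤ a < a'): a big gap starting at a'' ≥ a' > a: first alternative; or ofReal (c/2 (T - a')) ≤ volume (Icc a' T \ L): then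
 volume (Icc a T \ L) ≥ volume (Ioo a b) + volume (Icc a' T \ L) (disjoint, measurable: L closed) ≥ ofReal (c/2 (a' - a)) + ofReal (c/2 (T - a')).
-/
import Pool.Agent.H59.CR.Key
import Pool.Agent.H59.CR.LevB

set_option autoImplicit false

namespace Pool.Agent.H59.CR

open Set MeasureTheory Pool.Agent.H42.EM

theorem chain (A : Sys) (hfin : nu A Dom ≠ ⊤) {a₀ b₀ : ℝ} (h₀ : IsGap A.L a₀ b₀) {x l : ℝ}
    (hx : ∀ k : ℤ, x ≠ a₀ + k) (hl : 0 < l) (hl2 : cc A a₀ b₀ * l ≤ b₀ - a₀) (T : ℝ) :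
    ∀ (n : ℕ) (a : ℝ), Lv A a₀ n a → x + l ≤ a → a ≤ T →
      (∀ u ∈ Ioc x a, ∀ m < n, ¬ Lv A a₀ m u) →
      (∃ a' b', IsGap A.L a' b' ∧ a ≤ a' ∧ a' ≤ T ∧ cc A a₀ b₀ * l ≤ b' - a') ∨
      ENNReal.ofReal (cc A a₀ b₀ / 2 * (T - a)) ≤ volume (Icc a T \ A.L) := by
  obtain ⟨c, hc⟩ : ∃ c, c = cc A a₀ b₀ := ⟨_, rfl⟩
  have hc0 : 0 < c := by
    rw [hc, cc]
    have h1 : 0 < b₀ - a₀ := sub_pos.2 h₀.1
    positivity
  have hc1 : c ≤ 1 / 2 := by
    rw [hc, cc]
    have h1 : b₀ - a₀ ≤ 1 := h₀.len_le_one A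
    have h2 : Real.exp (-(2 * K A)) ≤ 1 := by
      rw [Real.exp_le_one_iff]
      have := K_nonneg A
      linarith
    have h3 : 0 < Real.exp (-(2 * K A)) := Real.exp_pos _
    have h4 : 0 < b₀ - a₀ := sub_pos.2 h₀.1
    nlinarith
  rw [← hc] at hl2 ⊢
  intro n
  induction n using Nat.strong_induction_on with
  | _ n ih =>
  intro a hLv hxl haT hmin
  obtain ⟨w, k, b, hw, hwa, hwb, hgap⟩ := Lv_gap h₀ hLv
  by_cases hbig : c * l ≤ b - a
  · exact Or.inl ⟨a, b, hgap, le_rfl, haT, hbig⟩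
  rw [not_le] at hbig
  have hn : 0 < n := by
    rcases Nat.eq_zero_or_pos n with h | h
    · subst h
      obtain ⟨k', hk'⟩ := Lv_zero hLv
      have h1 := h₀.add_int A k'
      rw [← hk'] at h1
      have h2 := hgap.eq_of_left h1
      rw [h2, hk'] at hbig
      linarith
    · exact h
  have hxa : x < a := by linarith
  obtain ⟨m, a', hmn, hLv', haa', hax, hmin1, hmin2⟩ := Lv_next A hx hxa hn hmin
  obtain ⟨w', k', b', -, -, -, hgap'⟩ := Lv_gap h₀ hLv'
  have hba : b < a' := by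
    rcases lt_trichotomy b a' with h | h | h
    · exact h
    · exfalso
      obtain ⟨t, ht, htL⟩ := A.accR_of_gap hgap (b' - b) (by
        have := hgap'.1
        linarith)
      apply hgap'.2.2.2 t ⟨?_, ?_⟩ htL
      · rw [← h]
        exact ht.1
      · have := ht.2
        linarith
    · exact absurd hgap'.2.1 (hgap.2.2.2 a' ⟨haa', h⟩)
  have hkey := key A hfin h₀.1 hw hxa hgap.1 hba hax (Lv_zt hw hwa hmin1) hwa hwb
  rw [← hc] at hkey
  have hab : a < b := hgap.1
  have hlen : c / 2 * (a' - a) ≤ b - a := by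
    rcases le_total (a - x) (a' - b) with h | h
    · exfalso
      rw [min_eq_left h] at hkey
      have : c * l ≤ c * (a - x) := mul_le_mul_of_nonneg_left (by linarith) hc0.le
      linarith
    · rw [min_eq_right h] at hkey
      nlinarith
  rcases le_or_gt T b with hTb | hTb
  · right
    have hsub : Ioo a T ⊆ Icc a T \ A.L := fun t ht =>
      ⟨⟨ht.1.le, ht.2.le⟩, hgap.2.2.2 t ⟨ht.1, lt_of_lt_of_le ht.2 hTb⟩⟩
    calc ENNReal.ofReal (c / 2 * (T - a)) ≤ ENNReal.ofReal (T - a) := by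
          apply ENNReal.ofReal_le_ofReal
          nlinarith
      _ = volume (Ioo a T) := Real.volume_Ioo.symm
      _ ≤ _ := measure_mono hsub
  have hsubab : Ioo a b ⊆ Icc a T \ A.L := fun t ht =>
    ⟨⟨ht.1.le, (lt_trans ht.2 hTb).le⟩, hgap.2.2.2 t ht⟩
  rcases le_or_gt T a' with hTa | hTa
  · right
    calc ENNReal.ofReal (c / 2 * (T - a)) ≤ ENNReal.ofReal (b - a) := by
          apply ENNReal.ofReal_le_ofReal
          refine le_trans ?_ hlen
          apply mul_le_mul_of_nonneg_left (by linarith) (by linarith)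
      _ = volume (Ioo a b) := Real.volume_Ioo.symm
      _ ≤ _ := measure_mono hsubab
  rcases ih m hmn a' hLv' (by linarith) hTa.le hmin2 with h | h
  · obtain ⟨a'', b'', h1, h2, h3, h4⟩ := h
    exact Or.inl ⟨a'', b'', h1, by linarith, h3, h4⟩
  · right
    have hdisj : Disjoint (Icc a' T \ A.L) (Ioo a b) := by
      rw [Set.disjoint_left]
      intro t ht1 ht2
      have h1 := ht1.1.1
      have h2 := ht2.2
      linarith
    have hsub : (Icc a' T \ A.L) ∪ Ioo a b ⊆ Icc a T \ A.L := by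
      apply Set.union_subset _ hsubab
      rintro t ⟨ht, htL⟩
      exact ⟨⟨by linarith [ht.1], ht.2⟩, htL⟩
    calc ENNReal.ofReal (c / 2 * (T - a)) = ENNReal.ofReal (c / 2 * (T - a') + c / 2 * (a' - a)) := by
          congr 1
          ring
      _ ≤ ENNReal.ofReal (c / 2 * (T - a')) + ENNReal.ofReal (c / 2 * (a' - a)) :=
          ENNReal.ofReal_add_le
      _ ≤ volume (Icc a' T \ A.L) + volume (Ioo a b) := by
          apply add_le_add h
          rw [Real.volume_Ioo]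
          exact ENNReal.ofReal_le_ofReal hlen
      _ = volume ((Icc a' T \ A.L) ∪ Ioo a b) := (measure_union hdisj measurableSet_Ioo).symm
      _ ≤ _ := measure_mono hsub

end Pool.Agent.H59.CR
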