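/-
KAPP : pointwise bound of the defect `kap`.
PROOFS.
* bounds: deriv g and deriv (deriv g) are continuous (ContDiff ℝ 2) and 1-periodic (Good.deriv_add_int; for the second derivative: deriv of the periodic function, e.g. deriv_comp_add_const), so they attain
  their extrema on the compact interval Icc 0 1 (every x is fract x + integer); deriv g > 0.
* kap_le: h = y - x > 0, D = g y - g x, q = D / h; by Good.mvt q = deriv g ξ for some ξ ∈ (x, y), so q ≥ m; |deriv g x - q| ≤ M h, |deriv g y - q| ≤ M h (mean value inequality for deriv g with |g''| ≤ M,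
  e.g. Convex.norm_image_sub_le_of_norm_deriv_le).  With α = g' x - q, β = g' y - q:  g' x * g' y - q^2 = q (α + β) + α β, and kap g x y = (g' x * g' y - q^2) / (q^2 h^2).
  |α + β| = |g' x h + g' y h - 2 D| / h ≤ W / h.  So |kap| ≤ W / (q h^3) + M^2 / q^2 ≤ W / (m h^3) + M^2 / m^2.
-/
import Pool.Agent.H59.CR.Defs

set_option autoImplicit false

namespace Pool.Agent.H59.CR

open Set MeasureTheory Pool.Agent.H42.EM

lemma bounds {g : Equiv.Perm ℝ} (hg : Good g) : ∃ m M : ℝ, 0 < m ∧ 0 ≤ M ∧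
    (∀ x, m ≤ deriv (⇑g) x) ∧ ∀ x, |deriv (deriv (⇑g)) x| ≤ M := by
  have hd1 : ContDiff ℝ 1 (deriv (⇑g)) := by
    have := hg.1
    rw [show (2 : WithTop ℕ∞) = 1 + 1 by norm_num] at this
    exact (contDiff_succ_iff_deriv.mp this).2.2
  have hc : Continuous (deriv (deriv (⇑g))) := hd1.continuous_deriv le_rfl
  have hperd : ∀ x (k : ℤ), deriv (deriv (⇑g)) (x + k) = deriv (deriv (⇑g)) x := by
    intro x k
    have h1 : (fun y => deriv (⇑g) (y + k)) = deriv (⇑g) := by
      funext y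
      exact hg.deriv_add_int y k
    have h2 : deriv (fun y => deriv (⇑g) (y + k)) x = deriv (deriv (⇑g)) (x + k) := by
      rw [deriv_comp_add_const]
    rw [← h2, h1]
  obtain ⟨M, hM⟩ : ∃ M, ∀ x ∈ Set.Icc (0:ℝ) 1, ‖deriv (deriv (⇑g)) x‖ ≤ M :=
    isCompact_Icc.exists_bound_of_continuousOn hc.continuousOn
  have hM' : ∀ x, ‖deriv (deriv (⇑g)) x‖ ≤ M := by
    intro x
    have h1 := hperd (Int.fract x) ⌊x⌋
    rw [Int.fract_add_floor] at h1
    rw [h1]
    exact hM _ ⟨Int.fract_nonneg x, (Int.fract_lt_one x).le⟩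
  obtain ⟨x₀, -, hx₀⟩ := isCompact_Icc.exists_isMinOn (Set.nonempty_Icc.2 (zero_le_one (α := ℝ)))
    hg.contDeriv.continuousOn
  refine ⟨deriv (⇑g) x₀, M, hg.pos x₀, (norm_nonneg _).trans (hM' 0), fun x => ?_, fun x => ?_⟩
  · have h1 := hg.deriv_add_int (Int.fract x) ⌊x⌋
    rw [Int.fract_add_floor] at h1
    rw [h1]
    exact hx₀ ⟨Int.fract_nonneg x, (Int.fract_lt_one x).le⟩
  · have h1 := hM' x
    rwa [Real.norm_eq_abs] at h1

theorem kap_le {g : Equiv.Perm ℝ} (hg : Good g) {m M : ℝ} (hm : 0 < m) (h1 : ∀ x, m ≤ deriv (⇑g) x)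
    (h2 : ∀ x, |deriv (deriv (⇑g)) x| ≤ M) {x y : ℝ} (hxy : x < y) {W : ℝ}
    (hW : |deriv (⇑g) x * (y - x) + deriv (⇑g) y * (y - x) - 2 * (g y - g x)| ≤ W) :
    |kap g x y| ≤ W / (m * (y - x) ^ 3) + M ^ 2 / m ^ 2 := by
  have hd1 : ContDiff ℝ 1 (deriv (⇑g)) := by
    have := hg.1
    rw [show (2 : WithTop ℕ∞) = 1 + 1 by norm_num] at this
    exact (contDiff_succ_iff_deriv.mp this).2.2
  have hlip : ∀ u v : ℝ, |deriv (⇑g) u - deriv (⇑g) v| ≤ M * |u - v| := by
    intro u v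
    have h := Convex.norm_image_sub_le_of_norm_deriv_le (f := deriv (⇑g)) (s := Set.univ) (x := v)
      (y := u) (fun z _ => (hd1.differentiable one_ne_zero) z)
      (fun z _ => by rw [Real.norm_eq_abs]; exact h2 z) convex_univ (mem_univ _) (mem_univ _)
    simpa [Real.norm_eq_abs] using h
  have hM : 0 ≤ M := (abs_nonneg _).trans (h2 0)
  obtain ⟨ξ, hξ, hD⟩ := hg.mvt hxy
  obtain ⟨hξ1, hξ2⟩ := hξ
  set q : ℝ := deriv (⇑g) ξ with hq
  have hqm : m ≤ q := h1 ξ
  have hq0 : 0 < q := lt_of_lt_of_le hm hqm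
  set t : ℝ := y - x with ht
  have ht0 : 0 < t := sub_pos.2 hxy
  have ha : |deriv (⇑g) x - q| ≤ M * t := by
    refine (hlip x ξ).trans ?_
    have h3 : |x - ξ| ≤ t := by
      rw [abs_le]
      constructor <;> linarith
    exact mul_le_mul_of_nonneg_left h3 hM
  have hb : |deriv (⇑g) y - q| ≤ M * t := by
    refine (hlip y ξ).trans ?_
    have h3 : |y - ξ| ≤ t := by
      rw [abs_le]
      constructor <;> linarith
    exact mul_le_mul_of_nonneg_left h3 hM
  have hk : kap g x y = deriv (⇑g) x * deriv (⇑g) y / (q * t) ^ 2 - 1 / t ^ 2 := by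
    unfold kap
    rw [hD]
  generalize deriv (⇑g) x = u at *
  generalize deriv (⇑g) y = v at *
  have hW0 : 0 ≤ W := (abs_nonneg _).trans hW
  have hab : |(u - q) + (v - q)| * t ≤ W := by
    rw [hD] at hW
    have h3 : u * t + v * t - 2 * (q * t) = ((u - q) + (v - q)) * t := by ring
    rw [h3, abs_mul, abs_of_pos ht0] at hW
    exact hW
  have hsplit : u * v / (q * t) ^ 2 - 1 / t ^ 2 =
      ((u - q) + (v - q)) / (q * t ^ 2) + (u - q) * (v - q) / (q ^ 2 * t ^ 2) := by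
    field_simp
    ring
  rw [hk, hsplit]
  refine (abs_add_le _ _).trans (add_le_add ?_ ?_)
  · rw [abs_div, abs_of_pos (by positivity : 0 < q * t ^ 2), div_le_div_iff₀ (by positivity)
      (by positivity)]
    calc |(u - q) + (v - q)| * (m * t ^ 3) = (|(u - q) + (v - q)| * t) * (m * t ^ 2) := by ring
      _ ≤ W * (m * t ^ 2) := mul_le_mul_of_nonneg_right hab (by positivity)
      _ ≤ W * (q * t ^ 2) := by
        refine mul_le_mul_of_nonneg_left ?_ hW0
        exact mul_le_mul_of_nonneg_right hqm (by positivity)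
  · rw [abs_div, abs_of_pos (by positivity : 0 < q ^ 2 * t ^ 2), abs_mul,
      div_le_div_iff₀ (by positivity) (by positivity)]
    have h4 : |u - q| * |v - q| ≤ (M * t) * (M * t) :=
      mul_le_mul ha hb (abs_nonneg _) (by positivity)
    have h5 : m ^ 2 ≤ q ^ 2 := pow_le_pow_left₀ hm.le hqm 2
    calc |u - q| * |v - q| * m ^ 2 ≤ (M * t) * (M * t) * m ^ 2 :=
          mul_le_mul_of_nonneg_right h4 (by positivity)
      _ ≤ (M * t) * (M * t) * q ^ 2 := mul_le_mul_of_nonneg_left h5 (by positivity)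
      _ = M ^ 2 * (q ^ 2 * t ^ 2) := by ring

end Pool.Agent.H59.CR
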