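/-
KAPT : error of the trapezoidal rule.
PROOF.  Integration by parts: the function u ↦ (2 u - x - y) g' u has derivative 2 g' u + (2 u - x - y) g'' u (g is C²), so the integral of the latter over x..y is (y - x) g' y + (y - x) g' x;
∫ 2 g' = 2 (g y - g x); and ∫ x..y (2 u - x - y) du = 0, so g'' u may be replaced by g'' u - g'' x (all integrands are continuous).
-/
import Pool.Agent.H59.CR.KapP

set_option autoImplicit false

namespace Pool.Agent.H59.CR

open Set MeasureTheory Pool.Agent.H42.EM

theorem trap_eq {g : Equiv.Perm ℝ} (hg : Good g) (x y : ℝ) :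
    deriv (⇑g) x * (y - x) + deriv (⇑g) y * (y - x) - 2 * (g y - g x) =
      ∫ u in x..y, (2 * u - x - y) * (deriv (deriv (⇑g)) u - deriv (deriv (⇑g)) x) := by
  have hd1 : ContDiff ℝ 1 (deriv (⇑g)) := by
    have := hg.1
    rw [show (2 : WithTop ℕ∞) = 1 + 1 by norm_num] at this
    exact (contDiff_succ_iff_deriv.mp this).2.2
  have hc : Continuous (deriv (deriv (⇑g))) := hd1.continuous_deriv le_rfl
  have hd : Differentiable ℝ (deriv (⇑g)) := hd1.differentiable (by norm_num)
  have h1 : ∀ u ∈ uIcc x y, HasDerivAt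
      (fun u => (2 * u - x - y) * deriv (⇑g) u - 2 * g u -
        deriv (deriv (⇑g)) x * ((u - x) * (u - y)))
      ((2 * u - x - y) * (deriv (deriv (⇑g)) u - deriv (deriv (⇑g)) x)) u := by
    intro u _
    have e1 : HasDerivAt (fun u : ℝ => 2 * u - x - y) 2 u := by
      simpa using ((((hasDerivAt_id u).const_mul 2).sub_const x).sub_const y)
    have e2 : HasDerivAt (deriv (⇑g)) (deriv (deriv (⇑g)) u) u := (hd u).hasDerivAt
    have e3 : HasDerivAt (⇑g) (deriv (⇑g) u) u := (hg.diff u).hasDerivAt
    have e4 : HasDerivAt (fun u : ℝ => (u - x) * (u - y)) (1 * (u - y) + (u - x) * 1) u :=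
      ((hasDerivAt_id u).sub_const x).mul ((hasDerivAt_id u).sub_const y)
    refine (((e1.mul e2).sub (e3.const_mul 2)).sub (e4.const_mul _)).congr_deriv ?_
    ring
  rw [intervalIntegral.integral_eq_sub_of_hasDerivAt h1
    (Continuous.intervalIntegrable (by fun_prop) _ _)]
  ring

end Pool.Agent.H59.CR
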