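/-
KAPL : if the difference quotient of the second derivative is integrable then `kap` is integrable.
PROOF.  Let m, M be given by bounds, D2 = deriv (deriv g) (continuous).  By trap_eq and |2 u - x - y| ≤ y - x for u in [x,y]:
|g' x h + g' y h - 2 (g y - g x)| ≤ h ∫ u in x..y, |D2 u - D2 x|, h = y - x.  kap_le: |kap g x y| ≤ 1/(m h^2) ∫ u in x..y |D2 u - D2 x| + M^2/m^2.
∫⁻ over Dom of ‖kap‖ₑ = ∫⁻ x in Ioo 0 2, ∫⁻ y in Ioo x (x+1), ‖kap g x y‖ₑ (Dom as a subset of the product; lintegral_prod with indicator functions)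
 ≤ ∫⁻ x in Ioo 0 2, ∫⁻ y in Ioo x (x+1), ofReal (1/(m (y-x)^2)) * ∫⁻ u in Ioo x y, ‖D2 u - D2 x‖ₑ   +   2 * ofReal (M^2/m^2).
Tonelli for fixed x (lintegral_lintegral_swap, measurable functions with indicators): the inner double integral is
 ∫⁻ u in Ioo x (x+1), ‖D2 u - D2 x‖ₑ * ∫⁻ y in Ioo u (x+1), ofReal (1/(m (y-x)^2)) ≤ ∫⁻ u in Ioo x (x+1), ‖D2 u - D2 x‖ₑ * ofReal (1 / (m (u - x)))
 (∫ y in u..x+1 of 1/(y-x)^2 = 1/(u-x) - 1 ≤ 1/(u-x)), and this is (1/m) ∫⁻ u in Ioo x (x+1), ‖dq g (x, u)‖ₑ.  Integrate over x: ≤ (1/m) ∫⁻ over Dom of ‖dq g‖ₑ < ∞.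
-/
import Pool.Agent.H59.CR.KapT

set_option autoImplicit false

namespace Pool.Agent.H59.CR

open Set MeasureTheory Pool.Agent.H42.EM

/-- the difference quotient of the second derivative -/
noncomputable def dq (g : Equiv.Perm ℝ) (p : ℝ × ℝ) : ℝ :=
  (deriv (deriv (⇑g)) p.1 - deriv (deriv (⇑g)) p.2) / (p.1 - p.2)

/-- the second derivative is continuous -/
lemma KapL_cont {g : Equiv.Perm ℝ} (hg : Good g) : Continuous (deriv (deriv (⇑g))) := by
  have h : ContDiff ℝ ((0 + 2 : ℕ) : WithTop ℕ∞) (⇑g) := by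
    have := hg.1
    norm_num
    exact this
  have h2 := ContDiff.iterate_deriv' 0 2 h
  simpa using h2.continuous

lemma KapL_meas : MeasurableSet Dom := by
  unfold Dom
  apply MeasurableSet.inter (measurableSet_lt measurable_const measurable_fst)
  apply MeasurableSet.inter (measurableSet_lt measurable_fst measurable_const)
  apply MeasurableSet.inter (measurableSet_lt measurable_fst measurable_snd)
  exact measurableSet_lt measurable_snd (measurable_fst.add_const 1)

/-- the integral over `Dom` as an iterated integral -/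
lemma KapL_iter {F : ℝ × ℝ → ENNReal} (hF : Measurable F) :
    ∫⁻ p in Dom, F p = ∫⁻ x in Ioo (0 : ℝ) 2, ∫⁻ y in Ioo x (x + 1), F (x, y) := by
  rw [← lintegral_indicator KapL_meas, Measure.volume_eq_prod,
    lintegral_prod _ ((hF.indicator KapL_meas).aemeasurable),
    ← lintegral_indicator measurableSet_Ioo]
  apply lintegral_congr
  intro x
  by_cases hx : x ∈ Ioo (0 : ℝ) 2
  · rw [indicator_of_mem hx, ← lintegral_indicator measurableSet_Ioo]
    apply lintegral_congr
    intro y
    by_cases hy : y ∈ Ioo x (x + 1)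
    · rw [indicator_of_mem hy, indicator_of_mem]
      exact ⟨hx.1, hx.2, hy.1, hy.2⟩
    · rw [indicator_of_notMem hy, indicator_of_notMem]
      intro h
      exact hy ⟨h.2.2.1, h.2.2.2⟩
  · rw [indicator_of_notMem hx]
    have : ∀ y, Dom.indicator F (x, y) = 0 := by
      intro y
      apply indicator_of_notMem
      intro h
      exact hx ⟨h.1, h.2.1⟩
    simp [this]

/-- pointwise bound -/
lemma KapL_pt {g : Equiv.Perm ℝ} (hg : Good g) {m M : ℝ} (hm : 0 < m)
    (h1 : ∀ x, m ≤ deriv (⇑g) x) (h2 : ∀ x, |deriv (deriv (⇑g)) x| ≤ M) {x y : ℝ} (hxy : x < y) :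
    ‖kap g x y‖ₑ ≤ ENNReal.ofReal (1 / (m * (y - x) ^ 2)) *
      (∫⁻ u in Ioo x y, ‖deriv (deriv (⇑g)) u - deriv (deriv (⇑g)) x‖ₑ) +
      ENNReal.ofReal (M ^ 2 / m ^ 2) := by
  have hc := KapL_cont hg
  have hh : 0 < y - x := by linarith
  set I : ℝ := ∫ u in x..y, |deriv (deriv (⇑g)) u - deriv (deriv (⇑g)) x| with hI
  have hcu : Continuous fun u => |deriv (deriv (⇑g)) u - deriv (deriv (⇑g)) x| :=
    (hc.sub continuous_const).abs
  have hI0 : 0 ≤ I := intervalIntegral.integral_nonneg hxy.le (fun u _ => abs_nonneg _)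
  have hW : |deriv (⇑g) x * (y - x) + deriv (⇑g) y * (y - x) - 2 * (g y - g x)| ≤
      (y - x) * I := by
    rw [trap_eq hg x y, hI, ← intervalIntegral.integral_const_mul]
    refine (intervalIntegral.abs_integral_le_integral_abs hxy.le).trans ?_
    apply intervalIntegral.integral_mono_on hxy.le
    · apply Continuous.intervalIntegrable
      exact (((continuous_const.mul continuous_id).sub continuous_const).sub
        continuous_const |>.mul (hc.sub continuous_const)).abs
    · exact (continuous_const.mul hcu).intervalIntegrable _ _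
    · intro u hu
      rw [abs_mul]
      apply mul_le_mul_of_nonneg_right _ (abs_nonneg _)
      rw [abs_le]
      constructor
      · linarith [hu.1]
      · linarith [hu.2]
  have hk := kap_le hg hm h1 h2 hxy hW
  have hk2 : (y - x) * I / (m * (y - x) ^ 3) = 1 / (m * (y - x) ^ 2) * I := by
    field_simp
  rw [hk2] at hk
  have hlin : (∫⁻ u in Ioo x y, ‖deriv (deriv (⇑g)) u - deriv (deriv (⇑g)) x‖ₑ) =
      ENNReal.ofReal I := by
    rw [hI, intervalIntegral.integral_of_le hxy.le, ofReal_integral_eq_lintegral_ofReal]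
    · rw [restrict_Ioo_eq_restrict_Ioc]
      apply lintegral_congr
      intro u
      rw [← Real.norm_eq_abs, ofReal_norm]
    · exact (hcu.integrableOn_Icc).mono_set Ioc_subset_Icc_self
    · exact Filter.Eventually.of_forall (fun u => abs_nonneg _)
  rw [hlin, ← ENNReal.ofReal_mul (by positivity), ← ENNReal.ofReal_add (by positivity) (by positivity),
    ← ofReal_norm, Real.norm_eq_abs]
  exact ENNReal.ofReal_le_ofReal hk

/-- the integral of `1 / (m (y - x)^2)` -/
lemma KapL_int {m x u : ℝ} (hm : 0 < m) (hu : x < u) (hu1 : u < x + 1) :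
    ∫⁻ y in Ioo u (x + 1), ENNReal.ofReal (1 / (m * (y - x) ^ 2)) ≤
      ENNReal.ofReal (1 / (m * (u - x))) := by
  have hne : ∀ y ∈ uIcc u (x + 1), y - x ≠ 0 := by
    intro y hy
    rw [uIcc_of_le hu1.le] at hy
    have := hy.1
    intro h
    linarith
  have hco : ContinuousOn (fun y : ℝ => 1 / (m * (y - x) ^ 2)) (uIcc u (x + 1)) := by
    apply ContinuousOn.div continuousOn_const (by fun_prop)
    intro y hy
    have := hne y hy
    positivity
  have hint : ∫ y in u..(x + 1), 1 / (m * (y - x) ^ 2) =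
      (-(1 / (m * (x + 1 - x)))) - (-(1 / (m * (u - x)))) := by
    apply intervalIntegral.integral_eq_sub_of_hasDerivAt
      (f := fun y : ℝ => -(1 / (m * (y - x))))
    · intro y hy
      have hy0 := hne y hy
      have h1 : HasDerivAt (fun y : ℝ => m * (y - x)) m y := by
        simpa using ((hasDerivAt_id y).sub_const x).const_mul m
      have h2 := ((hasDerivAt_const y (1 : ℝ)).div h1 (mul_ne_zero hm.ne' hy0)).neg
      have h3 : -((0 * (m * (y - x)) - 1 * m) / (m * (y - x)) ^ 2) = 1 / (m * (y - x) ^ 2) := by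
        field_simp
        ring
      rw [h3] at h2
      exact h2
    · exact hco.intervalIntegrable
  rw [restrict_Ioo_eq_restrict_Ioc, ← ofReal_integral_eq_lintegral_ofReal,
    ← intervalIntegral.integral_of_le hu1.le, hint]
  · apply ENNReal.ofReal_le_ofReal
    have : 0 < 1 / (m * (x + 1 - x)) := by
      have : x + 1 - x = 1 := by ring
      rw [this]
      positivity
    linarith
  · exact (intervalIntegrable_iff_integrableOn_Ioc_of_le hu1.le).mp hco.intervalIntegrable
  · exact Filter.Eventually.of_forall (fun u => by positivity)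

/-- Tonelli for fixed `x` -/
lemma KapL_ton {m x : ℝ} (hm : 0 < m) {D : ℝ → ENNReal} (hD : Measurable D) :
    ∫⁻ y in Ioo x (x + 1), (ENNReal.ofReal (1 / (m * (y - x) ^ 2)) * ∫⁻ u in Ioo x y, D u) ≤
      ∫⁻ u in Ioo x (x + 1), D u * ENNReal.ofReal (1 / (m * (u - x))) := by
  set S : Set (ℝ × ℝ) := {p | x < p.2 ∧ p.2 < p.1 ∧ p.1 < x + 1} with hS
  have hSm : MeasurableSet S := by
    apply MeasurableSet.inter (measurableSet_lt measurable_const measurable_snd)
    apply MeasurableSet.inter (measurableSet_lt measurable_snd measurable_fst)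
    exact measurableSet_lt measurable_fst measurable_const
  set H : ℝ × ℝ → ENNReal := fun p => ENNReal.ofReal (1 / (m * (p.1 - x) ^ 2)) * D p.2 with hH
  have hHm : Measurable H := by
    apply Measurable.mul
    · apply Measurable.ennreal_ofReal
      fun_prop
    · exact hD.comp measurable_snd
  have e1 : ∫⁻ y in Ioo x (x + 1),
      (ENNReal.ofReal (1 / (m * (y - x) ^ 2)) * ∫⁻ u in Ioo x y, D u) =
      ∫⁻ y, ∫⁻ u, S.indicator H (y, u) := by
    rw [← lintegral_indicator measurableSet_Ioo]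
    apply lintegral_congr
    intro y
    by_cases hy : y ∈ Ioo x (x + 1)
    · rw [indicator_of_mem hy, ← lintegral_const_mul _ hD, ← lintegral_indicator measurableSet_Ioo]
      apply lintegral_congr
      intro u
      by_cases hu : u ∈ Ioo x y
      · rw [indicator_of_mem hu, indicator_of_mem]
        exact ⟨hu.1, hu.2, hy.2⟩
      · rw [indicator_of_notMem hu, indicator_of_notMem]
        intro h
        exact hu ⟨h.1, h.2.1⟩
    · rw [indicator_of_notMem hy]
      have : ∀ u, S.indicator H (y, u) = 0 := by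
        intro u
        apply indicator_of_notMem
        intro h
        exact hy ⟨h.1.trans h.2.1, h.2.2⟩
      simp [this]
  have sw : ∫⁻ y, ∫⁻ u, S.indicator H (y, u) = ∫⁻ u, ∫⁻ y, S.indicator H (y, u) := by
    apply lintegral_lintegral_swap (f := fun y u => S.indicator H (y, u))
    exact (hHm.indicator hSm).aemeasurable
  rw [e1, sw,
    ← lintegral_indicator measurableSet_Ioo]
  apply lintegral_mono
  intro u
  by_cases hu : u ∈ Ioo x (x + 1)
  · have e2 : ∫⁻ y, S.indicator H (y, u) =
        ∫⁻ y in Ioo u (x + 1), ENNReal.ofReal (1 / (m * (y - x) ^ 2)) * D u := by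
      rw [← lintegral_indicator measurableSet_Ioo]
      apply lintegral_congr
      intro y
      by_cases hy : y ∈ Ioo u (x + 1)
      · rw [indicator_of_mem hy, indicator_of_mem]
        exact ⟨hu.1, hy.1, hy.2⟩
      · rw [indicator_of_notMem hy, indicator_of_notMem]
        intro h
        exact hy ⟨h.2.1, h.2.2⟩
    simp only [indicator_of_mem hu]
    rw [e2, lintegral_mul_const _ (by fun_prop), mul_comm]
    gcongr
    exact KapL_int hm hu.1 hu.2
  · have : ∀ y, S.indicator H (y, u) = 0 := by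
      intro y
      apply indicator_of_notMem
      intro h
      exact hu ⟨h.1, h.2.1.trans h.2.2⟩
    simp [this]

theorem kap_fin {g : Equiv.Perm ℝ} (hg : Good g) (h : ∫⁻ p in Dom, ‖dq g p‖ₑ ≠ ⊤) :
    ∫⁻ p in Dom, ‖kap g p.1 p.2‖ₑ ≠ ⊤ := by
  obtain ⟨m, M, hm, hM, h1, h2⟩ := bounds hg
  have hc := KapL_cont hg
  have hc1 := hg.contDeriv
  have hc0 := hg.cont
  have mk : Measurable fun p : ℝ × ℝ => ‖kap g p.1 p.2‖ₑ := by
    apply Measurable.enorm
    unfold kap
    have a1 := (hc1.measurable.comp measurable_fst : Measurable fun p : ℝ × ℝ => deriv (⇑g) p.1)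
    have a2 := (hc1.measurable.comp measurable_snd : Measurable fun p : ℝ × ℝ => deriv (⇑g) p.2)
    have a3 := (hc0.measurable.comp measurable_fst : Measurable fun p : ℝ × ℝ => g p.1)
    have a4 := (hc0.measurable.comp measurable_snd : Measurable fun p : ℝ × ℝ => g p.2)
    exact ((a1.mul a2).div ((a4.sub a3).pow_const 2)).sub
      (measurable_const.div ((measurable_snd.sub measurable_fst).pow_const 2))
  have md : Measurable fun p : ℝ × ℝ => ‖dq g p‖ₑ := by
    apply Measurable.enorm
    unfold dq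
    have a1 := (hc.measurable.comp measurable_fst :
      Measurable fun p : ℝ × ℝ => deriv (deriv (⇑g)) p.1)
    have a2 := (hc.measurable.comp measurable_snd :
      Measurable fun p : ℝ × ℝ => deriv (deriv (⇑g)) p.2)
    exact (a1.sub a2).div (measurable_fst.sub measurable_snd)
  rw [KapL_iter md] at h
  rw [KapL_iter mk]
  set c : ENNReal := ENNReal.ofReal (M ^ 2 / m ^ 2) with hcdef
  have key : ∀ x : ℝ, ∫⁻ y in Ioo x (x + 1), ‖kap g x y‖ₑ ≤
      ENNReal.ofReal (1 / m) * (∫⁻ y in Ioo x (x + 1), ‖dq g (x, y)‖ₑ) + c := by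
    intro x
    have s1 : ∫⁻ y in Ioo x (x + 1), ‖kap g x y‖ₑ ≤
        ∫⁻ y in Ioo x (x + 1), (ENNReal.ofReal (1 / (m * (y - x) ^ 2)) *
          (∫⁻ u in Ioo x y, ‖deriv (deriv (⇑g)) u - deriv (deriv (⇑g)) x‖ₑ) + c) := by
      apply setLIntegral_mono' measurableSet_Ioo
      intro y hy
      exact KapL_pt hg hm h1 h2 hy.1
    refine s1.trans ?_
    rw [lintegral_add_right _ measurable_const]
    have s2 : ∫⁻ y in Ioo x (x + 1), c = c := by
      rw [lintegral_const]
      simp
    rw [s2]
    gcongr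
    have mD : Measurable fun u => ‖deriv (deriv (⇑g)) u - deriv (deriv (⇑g)) x‖ₑ :=
      (hc.measurable.sub_const _).enorm
    refine (KapL_ton hm mD).trans ?_
    rw [← lintegral_const_mul' _ _ ENNReal.ofReal_ne_top]
    apply setLIntegral_mono' measurableSet_Ioo
    intro u hu
    apply le_of_eq
    have hux : 0 < u - x := by linarith [hu.1]
    rw [← ofReal_norm, ← ofReal_norm, ← ENNReal.ofReal_mul (norm_nonneg _),
      ← ENNReal.ofReal_mul (by positivity)]
    congr 1
    unfold dq
    simp only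
    rw [norm_div, Real.norm_eq_abs, Real.norm_eq_abs, Real.norm_eq_abs,
      abs_sub_comm (deriv (deriv (⇑g)) x), abs_sub_comm x u, abs_of_pos hux]
    field_simp
  have fin : ∫⁻ x in Ioo (0 : ℝ) 2, ∫⁻ y in Ioo x (x + 1), ‖kap g x y‖ₑ ≤
      ENNReal.ofReal (1 / m) *
        (∫⁻ x in Ioo (0 : ℝ) 2, ∫⁻ y in Ioo x (x + 1), ‖dq g (x, y)‖ₑ) + c * ENNReal.ofReal 2 := by
    refine (lintegral_mono key).trans ?_
    rw [lintegral_add_right _ measurable_const, lintegral_const_mul' _ _ ENNReal.ofReal_ne_top]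
    gcongr
    rw [lintegral_const]
    simp
  refine ne_top_of_le_ne_top ?_ fin
  apply ENNReal.add_ne_top.mpr
  constructor
  · exact ENNReal.mul_ne_top ENNReal.ofReal_ne_top h
  · exact ENNReal.mul_ne_top ENNReal.ofReal_ne_top ENNReal.ofReal_ne_top

end Pool.Agent.H59.CR
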