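/-
KAPH : regularity assumptions which make the difference quotient of the second derivative integrable, and the finiteness of `nu A Dom`.
PROOFS.
* dq_holder: we may assume C ≥ 0 (take |C| or note C |x-y|^α ≥ 0).  For (x, y) in Dom: ‖dq g (x,y)‖ ≤ C (y - x)^(α - 1).  ∫⁻ over Dom = ∫⁻ x in Ioo 0 2, ∫⁻ y in Ioo x (x+1), ofReal (C (y-x)^(α-1))
  = 2 * ∫⁻ t in Ioo 0 1, ofReal (C t^(α-1)) < ∞ since t ↦ t^(α-1) is integrable on (0,1) (intervalIntegral.intervalIntegrable_rpow', -1 < α - 1).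
* dq_loc: Dom ⊆ Icc 0 2 ×ˢ Icc 0 3, compact; LocallyIntegrable.integrableOn_isCompact; Integrable gives ∫⁻ ‖·‖ₑ < ⊤.
* nu_fin: nu A Dom = ∫⁻ p in Dom, ∑ i ... (withDensity_apply, Dom measurable) = ∑ i ∫⁻ ... (lintegral_finset_sum, kap measurable: quotients of continuous functions), finite by kap_fin.
-/
import Pool.Agent.H59.CR.KapL

set_option autoImplicit false

namespace Pool.Agent.H59.CR

open Set MeasureTheory Pool.Agent.H42.EM

lemma dq_holder {g : Equiv.Perm ℝ} {C α : ℝ} (hα : 0 < α)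
    (h : ∀ x y, |deriv (deriv (⇑g)) x - deriv (deriv (⇑g)) y| ≤ C * |x - y| ^ α) :
    ∫⁻ p in Dom, ‖dq g p‖ₑ ≠ ⊤ := by
  have mF : Measurable fun p : ℝ × ℝ => ENNReal.ofReal (C * (p.2 - p.1) ^ (α - 1)) := by
    apply Measurable.ennreal_ofReal
    exact ((measurable_snd.sub measurable_fst).pow_const (α - 1)).const_mul C
  have b1 : ∫⁻ p in Dom, ‖dq g p‖ₑ ≤
      ∫⁻ p in Dom, ENNReal.ofReal (C * (p.2 - p.1) ^ (α - 1)) := by
    apply setLIntegral_mono' KapL_meas
    intro p hp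
    have hp1 : 0 < p.2 - p.1 := by linarith [hp.2.2.1]
    rw [← ofReal_norm]
    apply ENNReal.ofReal_le_ofReal
    unfold dq
    rw [norm_div, Real.norm_eq_abs, Real.norm_eq_abs, div_le_iff₀ (by
      rw [abs_sub_comm, abs_of_pos hp1]
      exact hp1)]
    refine (h p.1 p.2).trans (le_of_eq ?_)
    rw [abs_sub_comm p.1 p.2, abs_of_pos hp1, mul_assoc]
    congr 1
    conv_rhs => rw [← Real.rpow_one (p.2 - p.1), ← Real.rpow_mul hp1.le, one_mul,
      ← Real.rpow_add hp1]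
    congr 1
    ring
  refine ne_top_of_le_ne_top ?_ b1
  rw [KapL_iter mF]
  set I : ENNReal := ∫⁻ t in Ioo (0 : ℝ) 1, ENNReal.ofReal (C * t ^ (α - 1)) with hI
  have hIf : I ≠ ⊤ := by
    have h1 : IntegrableOn (fun t : ℝ => C * t ^ (α - 1)) (Ioo 0 1) := by
      have h2 : IntervalIntegrable (fun t : ℝ => t ^ (α - 1)) volume 0 1 :=
        intervalIntegral.intervalIntegrable_rpow' (by linarith)
      have h3 := (intervalIntegrable_iff_integrableOn_Ioo_of_le zero_le_one).mp (h2.const_mul C)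
      exact h3
    exact h1.lintegral_lt_top.ne
  have hx : ∀ x : ℝ, ∫⁻ y in Ioo x (x + 1),
      ENNReal.ofReal (C * ((x, y).2 - (x, y).1) ^ (α - 1)) = I := by
    intro x
    rw [← lintegral_indicator measurableSet_Ioo, hI, ← lintegral_indicator measurableSet_Ioo,
      ← lintegral_sub_right_eq_self
        ((Ioo (0 : ℝ) 1).indicator fun t => ENNReal.ofReal (C * t ^ (α - 1))) x]
    apply lintegral_congr
    intro y
    by_cases hy : y ∈ Ioo x (x + 1)
    · rw [indicator_of_mem hy, indicator_of_mem]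
      exact ⟨by linarith [hy.1], by linarith [hy.2]⟩
    · rw [indicator_of_notMem hy, indicator_of_notMem]
      intro h0
      exact hy ⟨by linarith [h0.1], by linarith [h0.2]⟩
  have hx2 : ∫⁻ x in Ioo (0 : ℝ) 2, ∫⁻ y in Ioo x (x + 1),
      ENNReal.ofReal (C * ((x, y).2 - (x, y).1) ^ (α - 1)) = ∫⁻ x in Ioo (0 : ℝ) 2, I := by
    apply lintegral_congr
    intro x
    exact hx x
  rw [hx2, lintegral_const]
  apply ENNReal.mul_ne_top hIf
  simp

lemma dq_loc {g : Equiv.Perm ℝ} (h : LocallyIntegrable (dq g) volume) :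
    ∫⁻ p in Dom, ‖dq g p‖ₑ ≠ ⊤ := by
  have h1 : IntegrableOn (dq g) (Icc (0 : ℝ) 2 ×ˢ Icc (0 : ℝ) 3) volume :=
    h.integrableOn_isCompact (isCompact_Icc.prod isCompact_Icc)
  have h2 : IntegrableOn (dq g) Dom volume := by
    apply h1.mono_set
    intro p hp
    obtain ⟨a, b, c, d⟩ := hp
    exact ⟨⟨a.le, b.le⟩, ⟨by linarith, by linarith⟩⟩
  exact h2.hasFiniteIntegral.ne

/-- the defect is measurable -/
lemma KapH_mk {g : Equiv.Perm ℝ} (hg : Good g) :
    Measurable fun p : ℝ × ℝ => ‖kap g p.1 p.2‖ₑ := by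
  have hc1 := hg.contDeriv
  have hc0 := hg.cont
  apply Measurable.enorm
  unfold kap
  have a1 := (hc1.measurable.comp measurable_fst : Measurable fun p : ℝ × ℝ => deriv (⇑g) p.1)
  have a2 := (hc1.measurable.comp measurable_snd : Measurable fun p : ℝ × ℝ => deriv (⇑g) p.2)
  have a3 := (hc0.measurable.comp measurable_fst : Measurable fun p : ℝ × ℝ => g p.1)
  have a4 := (hc0.measurable.comp measurable_snd : Measurable fun p : ℝ × ℝ => g p.2)
  exact ((a1.mul a2).div ((a4.sub a3).pow_const 2)).sub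
    (measurable_const.div ((measurable_snd.sub measurable_fst).pow_const 2))

theorem nu_fin (A : Sys) (h : ∀ i, ∫⁻ p in Dom, ‖kap (A.f i) p.1 p.2‖ₑ ≠ ⊤) : nu A Dom ≠ ⊤ := by
  unfold nu
  rw [withDensity_apply _ KapL_meas, lintegral_finsetSum _ (fun i _ => KapH_mk (A.hf i))]
  exact ENNReal.sum_ne_top.mpr (fun i _ => h i)

end Pool.Agent.H59.CR
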