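/-
POR : every point of accumulation from the right is a point of porosity in mean.
PROOF.  c = cc A a₀ b₀, 0 < c ≤ 1/2, c ≤ b₀ - a₀.  x ≠ a₀ + k for all k (a₀ + k is the left end point of a gap, L does not accumulate there from the right).
t' = min t 1; Lv_first with x + t' gives (n, a); l = a - x < t' ≤ 1, c l ≤ c ≤ b₀ - a₀.  chain with T = a + l / 2:
 first alternative: a gap (a', b') with a ≤ a' ≤ x + 3 l / 2 and b' - a' ≥ c l: Ioo a' (a' + c l) ⊆ Icc x (x + 2 l) \ L, of volume c l ≥ c / 4 * l;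
 second: ofReal (c / 2 * (l / 2)) ≤ volume (Icc a T \ L) ≤ volume (Icc x (x + 2 l) \ L).
-/
import Pool.Agent.H59.CR.Chn

set_option autoImplicit false

namespace Pool.Agent.H59.CR

open Set MeasureTheory Pool.Agent.H42.EM

theorem por (A : Sys) (hfin : nu A Dom ≠ ⊤) {a₀ b₀ : ℝ} (h₀ : IsGap A.L a₀ b₀) {x : ℝ}
    (hx : AccR A.L x) {t : ℝ} (ht : 0 < t) :
    ∃ l, 0 < l ∧ l < t ∧ ENNReal.ofReal (cc A a₀ b₀ / 4 * l) ≤ volume (Icc x (x + 2 * l) \ A.L) := by
  have hgap : 0 < b₀ - a₀ := sub_pos.2 h₀.1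
  have hgap1 : b₀ - a₀ ≤ 1 := IsGap.len_le_one A h₀
  have he0 : 0 < Real.exp (-(2 * K A)) := Real.exp_pos _
  have he1 : Real.exp (-(2 * K A)) ≤ 1 := by
    rw [Real.exp_le_one_iff]
    linarith [K_nonneg A]
  obtain ⟨c, hc⟩ : ∃ c, c = cc A a₀ b₀ := ⟨_, rfl⟩
  have hcdef : c = (b₀ - a₀) * Real.exp (-(2 * K A)) / 2 := hc
  have hprod : (b₀ - a₀) * Real.exp (-(2 * K A)) ≤ b₀ - a₀ := mul_le_of_le_one_right hgap.le he1
  have hprod0 : 0 < (b₀ - a₀) * Real.exp (-(2 * K A)) := mul_pos hgap he0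
  have hc0 : 0 < c := by
    rw [hcdef]
    linarith
  have hc1 : c ≤ 1 / 2 := by
    rw [hcdef]
    linarith
  have hc2 : c ≤ b₀ - a₀ := by
    rw [hcdef]
    linarith
  have hxne : ∀ k : ℤ, x ≠ a₀ + k := by
    intro k hk
    have h1 := IsGap.add_int A h₀ k
    obtain ⟨u, hu, huL⟩ := hx (b₀ - a₀) hgap
    refine h1.2.2.2 u ⟨?_, ?_⟩ huL
    · rw [← hk]
      exact hu.1
    · have := hu.2
      rw [hk] at this
      linarith
  have ht' : 0 < min t 1 := lt_min ht one_pos
  obtain ⟨n, a, hLv, hxa, hat, hmin⟩ := Lv_first A h₀ hx (t := x + min t 1) (by linarith)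
  have hl : 0 < a - x := sub_pos.2 hxa
  have hlt : a - x < t := by
    have := min_le_left t 1
    linarith
  have hl1 : a - x ≤ 1 := by
    have := min_le_right t 1
    linarith
  have hcl : c * (a - x) ≤ c := mul_le_of_le_one_right hc0.le hl1
  refine ⟨a - x, hl, hlt, ?_⟩
  have hch := chain A hfin h₀ hxne hl (by rw [← hc]; linarith) (a + (a - x) / 2) n a hLv
    (by linarith) (by linarith) hmin
  rw [← hc] at hch ⊢
  rcases hch with ⟨a', b', hg, haa, haT, hlen⟩ | hv
  · have hsub : Ioo a' (a' + c * (a - x)) ⊆ Icc x (x + 2 * (a - x)) \ A.L := by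
      intro u hu
      have hcl2 : c * (a - x) ≤ 1 / 2 * (a - x) := mul_le_mul_of_nonneg_right hc1 hl.le
      refine ⟨⟨?_, ?_⟩, ?_⟩
      · have := hu.1
        linarith
      · have := hu.2
        linarith
      · refine hg.2.2.2 u ⟨hu.1, ?_⟩
        have := hu.2
        linarith
    refine le_trans ?_ (measure_mono hsub)
    rw [Real.volume_Ioo]
    apply ENNReal.ofReal_le_ofReal
    have hpos : 0 < c * (a - x) := mul_pos hc0 hl
    linarith
  · have hsub : Icc a (a + (a - x) / 2) \ A.L ⊆ Icc x (x + 2 * (a - x)) \ A.L := by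
      intro u hu
      refine ⟨⟨?_, ?_⟩, hu.2⟩
      · have := hu.1.1
        linarith
      · have := hu.1.2
        linarith
    refine le_trans ?_ (measure_mono hsub)
    refine le_trans (le_of_eq ?_) hv
    congr 1
    ring

end Pool.Agent.H59.CR
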