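/-
VOL : porosity in mean at almost all points forces measure zero.
PROOF.  The points x of L with ¬ AccR L x are countable (countable_setOf_isolated_right_within or: they are left end points of pairwise disjoint intervals), so null.
Suppose x ∈ L, AccR L x: for every n : ℕ choose l n ∈ (0, 1 / (n + 1)) with ofReal (c l) ≤ volume (Icc x (x + 2 l) \ L).  Icc x (x + 2 l) = closedBall (x + l) l, of volume 2 l, and
volume (L ∩ closedBall) / volume (closedBall) ≤ ofReal (1 - c / 2) (or: ofReal c' with c' = max (1 - c/2) 0 < 1).  By IsUnifLocDoublingMeasure.ae_tendsto_measure_inter_div volume L 1 (see the proof of Dn_ae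
in Pool/Agent/H46/TT/W1b.lean, which is the same argument) this happens only on a null set of x ∈ L.
-/
import Pool.Agent.H59.CR.Defs

set_option autoImplicit false

namespace Pool.Agent.H59.CR

open Set MeasureTheory Pool.Agent.H42.EM

lemma Vol_ratio {E : Set ℝ} (hE : MeasurableSet E) {a b c : ℝ} (hab : a < b) (hc : 0 < c)
    (h : ENNReal.ofReal (c * ((b - a) / 2)) ≤ volume (Icc a b \ E)) :
    volume (E ∩ Icc a b) / volume (Icc a b) ≤ ENNReal.ofReal (1 - c / 2) := by
  apply ENNReal.div_le_of_le_mul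
  have h1 : volume (Icc a b ∩ E) + volume (Icc a b \ E) = volume (Icc a b) :=
    measure_inter_add_sdiff _ hE
  have h2 : volume (Icc a b) = ENNReal.ofReal (b - a) := Real.volume_Icc
  have hfin : volume (Icc a b \ E) ≠ ⊤ := by
    refine ne_top_of_le_ne_top ?_ (measure_mono sdiff_subset)
    rw [h2]
    exact ENNReal.ofReal_ne_top
  have hfin2 : volume (Icc a b ∩ E) ≠ ⊤ := by
    refine ne_top_of_le_ne_top ?_ (measure_mono inter_subset_left)
    rw [h2]
    exact ENNReal.ofReal_ne_top
  have h0 : 0 < b - a := by linarith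
  rw [inter_comm, h2, ← ENNReal.ofReal_mul' h0.le]
  rw [h2] at h1
  have e1 : (volume (Icc a b ∩ E)).toReal + (volume (Icc a b \ E)).toReal = b - a := by
    rw [← ENNReal.toReal_add hfin2 hfin, h1, ENNReal.toReal_ofReal h0.le]
  have e2 : c * ((b - a) / 2) ≤ (volume (Icc a b \ E)).toReal := by
    have h3 := ENNReal.toReal_mono hfin h
    rwa [ENNReal.toReal_ofReal (by positivity)] at h3
  rw [← ENNReal.ofReal_toReal hfin2]
  apply ENNReal.ofReal_le_ofReal
  nlinarith

lemma Vol_iso (L : Set ℝ) : {x ∈ L | ¬ AccR L x}.Countable := by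
  have h := countable_setOfPred_isolated_right_within (s := L)
  refine h.mono ?_
  rintro x ⟨hx, hA⟩
  refine ⟨hx, ?_⟩
  unfold AccR at hA
  push Not at hA
  obtain ⟨δ, hδ, hA⟩ := hA
  rw [← Filter.empty_mem_iff_bot] 
  rw [mem_nhdsWithin]
  refine ⟨Iio (x + δ), isOpen_Iio, ?_, ?_⟩
  · simpa using hδ
  · rintro t ⟨ht1, ht2⟩
    exact hA t ⟨ht2.2, ht1⟩ ht2.1

theorem null_of_por {L : Set ℝ} (hL : IsClosed L) {c : ℝ} (hc : 0 < c)
    (h : ∀ x ∈ L, AccR L x → ∀ t > 0, ∃ l, 0 < l ∧ l < t ∧
      ENNReal.ofReal (c * l) ≤ volume (Icc x (x + 2 * l) \ L)) : volume L = 0 := by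
  have hE := hL.measurableSet
  have h0 : volume {x ∈ L | ¬ AccR L x} = 0 := (Vol_iso L).measure_zero _
  have h1 : volume {x ∈ L | AccR L x} = 0 := by
    have hd := IsUnifLocDoublingMeasure.ae_tendsto_measure_inter_div (volume : Measure ℝ) L 1
    rw [ae_restrict_iff' hE, ae_iff] at hd
    refine measure_mono_null ?_ hd
    rintro x ⟨hx, hA⟩ hP
    have hx3 : ∀ n : ℕ, ∃ l, 0 < l ∧ l < 1 / ((n : ℝ) + 1) ∧
        ENNReal.ofReal (c * l) ≤ volume (Icc x (x + 2 * l) \ L) :=
      fun n => h x hx hA _ (by positivity)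
    choose l hl1 hl2 hl3 using hx3
    have hball : ∀ n, Metric.closedBall (x + l n) (l n) = Icc x (x + 2 * l n) := by
      intro n
      rw [Real.closedBall_eq_Icc]
      congr 1 <;> ring
    have hlim := hP hx (l := Filter.atTop) (fun n : ℕ => x + l n) (fun n => l n) ?_ ?_
    · have hle : ∀ᶠ n in (Filter.atTop : Filter ℕ),
          volume (L ∩ Metric.closedBall (x + l n) (l n)) /
            volume (Metric.closedBall (x + l n) (l n)) ≤ ENNReal.ofReal (1 - c / 2) := by
        refine Filter.Eventually.of_forall fun n => ?_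
        rw [hball n]
        have := hl1 n
        refine Vol_ratio hE (by linarith) hc ?_
        have e : (x + 2 * l n - x) / 2 = l n := by ring
        rw [e]
        exact hl3 n
      have h1 := le_of_tendsto hlim hle
      have h2 : ENNReal.ofReal (1 - c / 2) < 1 := by
        rw [← ENNReal.ofReal_one, ENNReal.ofReal_lt_ofReal_iff (by norm_num)]
        linarith
      exact absurd h1 (not_le.2 h2)
    · rw [tendsto_nhdsWithin_iff]
      refine ⟨?_, Filter.Eventually.of_forall fun n => ?_⟩
      · exact squeeze_zero (fun n => (hl1 n).le) (fun n => (hl2 n).le)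
          tendsto_one_div_add_atTop_nhds_zero_nat
      · exact hl1 n
    · refine Filter.Eventually.of_forall fun n => ?_
      rw [one_mul, hball n]
      have := hl1 n
      constructor <;> linarith
  have h2 : L ⊆ {x ∈ L | ¬ AccR L x} ∪ {x ∈ L | AccR L x} := by
    intro x hx
    by_cases hA : AccR L x
    · exact Or.inr ⟨hx, hA⟩
    · exact Or.inl ⟨hx, hA⟩
  exact measure_mono_null h2 (measure_union_null h0 h1)

end Pool.Agent.H59.CR
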