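/-
FIN : measure zero for systems with finite total defect.
-/
import Pool.Agent.H59.CR.Por
import Pool.Agent.H59.CR.Vol
import Pool.Agent.H59.CR.KapH

set_option autoImplicit false

namespace Pool.Agent.H59.CR

open Set MeasureTheory Pool.Agent.H42.EM

theorem null_of_fin (A : Sys) (hfin : nu A Dom ≠ ⊤) : volume A.L = 0 := by
  obtain ⟨t, ht⟩ : ∃ t, t ∉ A.L := by
    by_contra hcon
    push Not at hcon
    exact A.nuniv (eq_univ_of_forall hcon)
  obtain ⟨a₀, b₀, h₀, -⟩ := A.exists_gap ht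
  have hc : 0 < cc A a₀ b₀ / 4 := by
    unfold cc
    have h1 : 0 < b₀ - a₀ := by linarith [h₀.1]
    have h2 := Real.exp_pos (-(2 * K A))
    positivity
  exact null_of_por A.closed hc fun x _ hx t ht => por A hfin h₀ hx ht

theorem main_cr (A : Sys) (h : ∀ i, (∃ C α : ℝ, 0 < α ∧
      ∀ x y, |deriv (deriv (⇑(A.f i))) x - deriv (deriv (⇑(A.f i))) y| ≤ C * |x - y| ^ α) ∨
      LocallyIntegrable (fun p : ℝ × ℝ =>
        (deriv (deriv (⇑(A.f i))) p.1 - deriv (deriv (⇑(A.f i))) p.2) / (p.1 - p.2)) volume) :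
    volume A.L = 0 := by
  refine null_of_fin A (nu_fin A fun i => kap_fin (A.hf i) ?_)
  rcases h i with ⟨C, α, hα, hC⟩ | h1
  · exact dq_holder hα hC
  · exact dq_loc h1

end Pool.Agent.H59.CR
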