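/-
LEVA : levels (word lengths) of left end points of gaps.
PROOFS.
* Lv_fin: for every m the set W m = {g | ∃ w, A.Path m w ∧ w m = g} is finite (induction: w (m + 1) = s * w m, A.S is finite, w 0 = 1; Path.mono; compare Sys.long_path in EM/Pth.lean).
  The set is contained in the union over m ≤ n, g ∈ W m, and k in the finite set of integers with g p ≤ a₀ + k ≤ g q, of {g⁻¹ (a₀ + k)} (g is strictly increasing).
* Lv_zt: copy the end of the proof of exists_short in Pool/Agent/H46/TT/P1.lean: if i < j ≤ n, x < u < z and w i u = w j a + k', then the path w' l = w l for l < i and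
  w' l = w (l - i + j) * (w j)⁻¹ * w i for l ≥ i, of length n - (j - i) < n, maps u to a₀ + (k + k'); so Lv A a₀ (n - (j - i)) u with u in (x, z): contradiction to hmin.
* Lv_gap: b = (w n)⁻¹ (b₀ + k); IsGap.add_int, IsGap.image with (w n)⁻¹ ∈ A.G (compare P1.lean).
* Lv_zero: w 0 = 1.
-/
import Pool.Agent.H59.CR.Defs

set_option autoImplicit false

namespace Pool.Agent.H59.CR

open Set MeasureTheory Pool.Agent.H42.EM

private lemma LevA_words (A : Sys) (m : ℕ) : {g : Equiv.Perm ℝ | ∃ w, A.Path m w ∧ w m = g}.Finite := by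
  have hS : A.S.Finite := by
    refine ((Set.finite_range A.f).union (Set.finite_range fun i => (A.f i)⁻¹)).subset ?_
    rintro s ⟨i, rfl | rfl⟩
    · exact Or.inl ⟨i, rfl⟩
    · exact Or.inr ⟨i, rfl⟩
  induction m with
  | zero =>
    refine (Set.finite_singleton (1 : Equiv.Perm ℝ)).subset ?_
    rintro y ⟨w, hw, rfl⟩
    exact hw.1
  | succ n ih =>
    refine (Set.Finite.image2 (fun (s y : Equiv.Perm ℝ) => s * y) hS ih).subset ?_
    rintro y ⟨w, hw, rfl⟩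
    obtain ⟨s, hs, h2⟩ := hw.2 n (by omega)
    exact ⟨s, hs, w n, ⟨w, hw.mono (by omega), rfl⟩, h2.symm⟩

private lemma LevA_one {A : Sys} {g : Equiv.Perm ℝ} (hg : g ∈ A.G) (a₀ p q : ℝ) :
    {u : ℝ | u ∈ Icc p q ∧ ∃ k : ℤ, g u = a₀ + k}.Finite := by
  have hm : StrictMono (⇑g) := (A.good hg).mono
  refine ((Set.finite_Icc ⌈g p - a₀⌉ ⌊g q - a₀⌋).image
    (fun k : ℤ => g⁻¹ (a₀ + (k : ℝ)))).subset ?_
  rintro u ⟨⟨hu1, hu2⟩, k, hk⟩
  refine ⟨k, ⟨?_, ?_⟩, ?_⟩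
  · rw [Int.ceil_le]
    have := hm.monotone hu1
    linarith
  · rw [Int.le_floor]
    have := hm.monotone hu2
    linarith
  · show g⁻¹ (a₀ + (k : ℝ)) = u
    rw [← hk]
    simp

lemma Lv_fin (A : Sys) (a₀ : ℝ) (n : ℕ) (p q : ℝ) :
    {u : ℝ | u ∈ Icc p q ∧ ∃ m ≤ n, Lv A a₀ m u}.Finite := by
  have h : (⋃ m ∈ Set.Iic n, ⋃ g ∈ {g : Equiv.Perm ℝ | ∃ w, A.Path m w ∧ w m = g},
      {u : ℝ | u ∈ Icc p q ∧ ∃ k : ℤ, g u = a₀ + k}).Finite := by
    refine (Set.finite_Iic n).biUnion fun m _ => (LevA_words A m).biUnion ?_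
    rintro g ⟨w, hw, rfl⟩
    exact LevA_one (hw.mem le_rfl) a₀ p q
  refine h.subset ?_
  rintro u ⟨hu, m, hm, w, k, hw, hk⟩
  exact Set.mem_iUnion₂.2 ⟨m, hm, Set.mem_iUnion₂.2 ⟨w m, ⟨w, hw, rfl⟩, hu, k, hk⟩⟩

lemma Lv_zt {A : Sys} {a₀ : ℝ} {n : ℕ} {w : ℕ → Equiv.Perm ℝ} (hw : A.Path n w) {x z a : ℝ} {k : ℤ}
    (ha : w n a = a₀ + k) (hmin : ∀ u ∈ Ioo x z, ∀ m < n, ¬ Lv A a₀ m u) :
    ∀ i j, i < j → j ≤ n → ∀ (k : ℤ) (u : ℝ), x < u → u < z → w i u ≠ w j a + k := by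
  intro i j hij hj k' u hxu huz heq
  have hwG : w n ∈ A.G := hw.mem le_rfl
  refine hmin u ⟨hxu, huz⟩ (n - (j - i)) (by omega)
    ⟨fun l => if l < i then w l else w (l - i + j) * (w j)⁻¹ * w i, k + k', ⟨?_, ?_⟩, ?_⟩
  · rcases Nat.eq_zero_or_pos i with h0 | h0
    · subst h0
      simp [hw.1]
    · simp only [h0, if_true]
      exact hw.1
  · intro l hl
    rcases lt_trichotomy (l + 1) i with h1 | h1 | h1
    · obtain ⟨s, hs, h2⟩ := hw.2 l (by omega)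
      refine ⟨s, hs, ?_⟩
      simp only [if_pos h1, if_pos (show l < i by omega)]
      exact h2
    · obtain ⟨s, hs, h2⟩ := hw.2 l (by omega)
      refine ⟨s, hs, ?_⟩
      simp only [if_neg (show ¬ l + 1 < i by omega), if_pos (show l < i by omega)]
      rw [← h2, h1, Nat.sub_self, Nat.zero_add, mul_inv_cancel, one_mul]
    · obtain ⟨s, hs, h2⟩ := hw.2 (l - i + j) (by omega)
      refine ⟨s, hs, ?_⟩
      simp only [if_neg (show ¬ l + 1 < i by omega), if_neg (show ¬ l < i by omega)]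
      rw [show l + 1 - i + j = l - i + j + 1 by omega, h2, mul_assoc, mul_assoc, mul_assoc]
  · simp only [if_neg (show ¬ n - (j - i) < i by omega)]
    rw [show n - (j - i) - i + j = n by omega]
    have hgj : Good (w j)⁻¹ := (A.good (hw.mem hj)).inv
    have hgn : Good (w n) := A.good hwG
    rw [Equiv.Perm.mul_apply, Equiv.Perm.mul_apply, heq, hgj.add_int]
    rw [show (w j)⁻¹ ((w j) a) = a by simp, hgn.add_int, ha]
    push_cast
    ring

lemma Lv_gap {A : Sys} {a₀ b₀ : ℝ} (h₀ : IsGap A.L a₀ b₀) {n : ℕ} {a : ℝ} (h : Lv A a₀ n a) :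
    ∃ (w : ℕ → Equiv.Perm ℝ) (k : ℤ) (b : ℝ), A.Path n w ∧ w n a = a₀ + k ∧ w n b = b₀ + k ∧
      IsGap A.L a b := by
  obtain ⟨w, k, hw, ha⟩ := h
  have hgap : IsGap A.L ((w n)⁻¹ (a₀ + k)) ((w n)⁻¹ (b₀ + k)) :=
    (h₀.add_int A k).image A (inv_mem (hw.mem le_rfl))
  have e : (w n)⁻¹ (a₀ + k) = a := by
    rw [← ha]
    simp
  rw [e] at hgap
  exact ⟨w, k, _, hw, ha, by simp, hgap⟩

lemma Lv_zero {A : Sys} {a₀ a : ℝ} (h : Lv A a₀ 0 a) : ∃ k : ℤ, a = a₀ + k := by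
  obtain ⟨w, k, hw, ha⟩ := h
  rw [hw.1] at ha
  exact ⟨k, ha⟩

end Pool.Agent.H59.CR
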